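import Pool.Agent.K7.H87.FJ3.Tree

/-!
# HNN extensions and amalgams
-/

set_option autoImplicit false

namespace Pool.Agent.K7.H87.FJ3

open Pointwise Pool.Agent.R684.FP Pool.Agent.Y110.FJ SimpleGraph
open Pool.Agent.R941.FJ (C_cyc C_le C_equiv)
open Pool.Agent.Helper270.Tree (TreeAct)
open Pool.Agent.Helper270.HNN (Vert vt graph treeAct one_orbit stab_one stab_edge exists_vt smul_vt)

variable {C : ∀ (G : Type) [Group G], Prop}

/-- a normal subgroup which acts freely on the edges -/
theorem tree_free (hC : ClosedE C) (hFb : FbC C) {G V : Type} [Group G] [MulAction G V]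
    {Γ : SimpleGraph V} (hT : TreeAct G Γ) (N : Subgroup G) [N.Normal] (hQ : C (G ⧸ N))
    (hfree : ∀ x y, Γ.Adj x y → ∀ n ∈ N, n • x = x → n • y = y → n = 1)
    (hst : ∀ v : V, C (MulAction.stabilizer G v)) : C G := by
  refine tree_closed hC hFb hT N hQ (fun v => MulAction.stabilizer G v) ?_ hst
  intro v g hg
  have h1 : wild Γ N = ⊥ := by
    ext x y
    simp only [SimpleGraph.bot_adj, iff_false]
    rintro ⟨h, n, hn, hn1, hx, hy⟩
    exact hn1 (hfree x y h n hn hx hy)
  rw [h1, SimpleGraph.reachable_bot] at hg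
  exact hg.symm

/-- **HNN extensions** with a homomorphism which is injective on the associated subgroup -/
theorem hnn_closed (hC : ClosedE C) (hFb : FbC C) {G Q : Type} [Group G] [Group Q]
    {A B : Subgroup G} (φ : A ≃* B) (f : HNNExtension G A B φ →* Q)
    (hf : ∀ a ∈ A, f (HNNExtension.of a) = 1 → a = 1) (hG : C G) (hQ : C Q) :
    C (HNNExtension G A B φ) := by
  refine tree_free hC hFb (treeAct (φ := φ)) f.ker ?_ ?_ ?_
  · exact hC.base.of_injective _ _ (QuotientGroup.kerLift f) (QuotientGroup.kerLift_injective f) hQ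
  · intro x y hxy n hn hx hy
    obtain ⟨g, hg⟩ := one_orbit hxy
    have key : n • g • (vt 1 : Vert φ) = g • vt 1 → n • g • (vt HNNExtension.t⁻¹ : Vert φ) =
        g • vt HNNExtension.t⁻¹ → n = 1 := by
      intro h1 h2
      have h3 : g⁻¹ * n * g ∈ MulAction.stabilizer (HNNExtension G A B φ) (vt 1 : Vert φ) ⊓
          MulAction.stabilizer (HNNExtension G A B φ) (vt HNNExtension.t⁻¹ : Vert φ) := by
        rw [Subgroup.mem_inf, MulAction.mem_stabilizer_iff, MulAction.mem_stabilizer_iff]
        constructor
        · rw [mul_smul, mul_smul, h1, inv_smul_smul]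
        · rw [mul_smul, mul_smul, h2, inv_smul_smul]
      rw [stab_edge, Subgroup.mem_map] at h3
      obtain ⟨a, ha, hag⟩ := h3
      have h4 : f (HNNExtension.of a) = 1 := by
        rw [hag, map_mul, map_mul, show f n = 1 from hn, mul_one, ← map_mul, inv_mul_cancel, map_one]
      rw [hf a ha h4, map_one] at hag
      have h5 : n = g * (g⁻¹ * n * g) * g⁻¹ := by group
      rw [h5, ← hag]
      group
    rcases hg with ⟨rfl, rfl⟩ | ⟨rfl, rfl⟩
    · exact key hx hy
    · exact key hy hx
  · intro v
    obtain ⟨g, rfl⟩ := exists_vt v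
    have h1 : ∀ x : MulAction.stabilizer (HNNExtension G A B φ) (vt g : Vert φ),
        ∃ y : G, g⁻¹ * x.1 * g = HNNExtension.of y := by
      intro x
      rw [← stab_one (φ := φ), mul_smul, mul_smul]
      have h2 : g • (vt 1 : Vert φ) = vt g := by rw [smul_vt, mul_one]
      rw [h2, show x.1 • (vt g : Vert φ) = vt g from x.2, ← h2, inv_smul_smul]
    have hr : C (HNNExtension.of : G →* HNNExtension G A B φ).range :=
      hC.base.of_injective _ _ (MonoidHom.ofInjective (HNNExtension.of_injective φ)).symm.toMonoidHom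
        (MonoidHom.ofInjective (HNNExtension.of_injective φ)).symm.injective hG
    refine hC.base.of_injective _ _ ((((MulAut.conj g⁻¹).toMonoidHom).comp
      (MulAction.stabilizer (HNNExtension G A B φ) (vt g : Vert φ)).subtype).codRestrict
      (HNNExtension.of : G →* HNNExtension G A B φ).range ?_) ?_ hr
    · intro x
      obtain ⟨y, hy⟩ := h1 x
      refine ⟨y, ?_⟩
      rw [← hy]
      show _ = g⁻¹ * x.1 * g⁻¹⁻¹
      rw [inv_inv]
    · intro x y hxy
      have h2 : (MulAut.conj g⁻¹) x.1 = (MulAut.conj g⁻¹) y.1 := congrArg Subtype.val hxy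
      exact Subtype.ext ((MulAut.conj g⁻¹).injective h2)

section amalgam

variable {H : Type} [Group H] {K : Bool → Type} [∀ i, Group (K i)] (φ : ∀ i, H →* K i)

open Monoid

/-- **amalgams** with a homomorphism which is injective on the amalgamated subgroup -/
theorem amalgam_closed (hC : ClosedE C) (hFb : FbC C) (hφ : ∀ i, Function.Injective (φ i))
    {Q : Type} [Group Q] (f : PushoutI φ →* Q)
    (hf : Function.Injective (f.comp (PushoutI.base φ))) (hK : ∀ i, C (K i)) (hQ : C Q) :
    C (PushoutI φ) := by
  let M := Coprod (K true) (K false)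
  let i1 : H →* M := Coprod.inl.comp (φ true)
  let i2 : H →* M := Coprod.inr.comp (φ false)
  have h1 : Function.Injective i1 := Coprod.inl_injective.comp (hφ true)
  have h2 : Function.Injective i2 := Coprod.inr_injective.comp (hφ false)
  let e : i1.range ≃* i2.range := (MonoidHom.ofInjective h1).symm.trans (MonoidHom.ofInjective h2)
  have he : ∀ h : H, e ⟨i1 h, ⟨h, rfl⟩⟩ = ⟨i2 h, ⟨h, rfl⟩⟩ := by
    intro h
    have h3 : (⟨i1 h, ⟨h, rfl⟩⟩ : i1.range) = MonoidHom.ofInjective h1 h := rfl
    rw [h3]
    show (MonoidHom.ofInjective h2) ((MonoidHom.ofInjective h1).symm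
      (MonoidHom.ofInjective h1 h)) = _
    rw [MulEquiv.symm_apply_apply]
    rfl
  -- the retraction
  let ρ0 : M →* PushoutI φ := Coprod.lift (PushoutI.of (φ := φ) true) (PushoutI.of (φ := φ) false)
  have hρ1 : ∀ h : H, ρ0 (i1 h) = PushoutI.base φ h := by
    intro h
    show ρ0 (Coprod.inl (φ true h)) = _
    rw [Coprod.lift_apply_inl, PushoutI.of_apply_eq_base]
  have hρ2 : ∀ h : H, ρ0 (i2 h) = PushoutI.base φ h := by
    intro h
    show ρ0 (Coprod.inr (φ false h)) = _
    rw [Coprod.lift_apply_inr, PushoutI.of_apply_eq_base]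
  let ρ : HNNExtension M i1.range i2.range e →* PushoutI φ := HNNExtension.lift ρ0 1 (by
    rintro ⟨_, h, rfl⟩
    rw [one_mul, mul_one, he, hρ1, hρ2])
  -- the embedding
  let j : PushoutI φ →* HNNExtension M i1.range i2.range e := PushoutI.lift
    (fun i => match i with
      | true => (MulAut.conj HNNExtension.t).toMonoidHom.comp (HNNExtension.of.comp Coprod.inl)
      | false => HNNExtension.of.comp Coprod.inr)
    (HNNExtension.of.comp i2) (by
      intro i
      cases i
      · rfl
      · ext h
        show HNNExtension.t * HNNExtension.of (i1 h) * HNNExtension.t⁻¹ = HNNExtension.of (i2 h)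
        have h3 := HNNExtension.equiv_eq_conj (φ := e) (⟨i1 h, ⟨h, rfl⟩⟩ : i1.range)
        rw [he] at h3
        exact h3.symm)
  have hρj : ρ.comp j = MonoidHom.id _ := by
    apply PushoutI.hom_ext_nonempty
    intro i
    ext k
    cases i
    · show ρ (j (PushoutI.of false k)) = PushoutI.of false k
      rw [PushoutI.lift_of]
      show ρ (HNNExtension.of (Coprod.inr k)) = _
      rw [HNNExtension.lift_of, Coprod.lift_apply_inr]
    · show ρ (j (PushoutI.of true k)) = PushoutI.of true k
      rw [PushoutI.lift_of]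
      show ρ (HNNExtension.t * HNNExtension.of (Coprod.inl k) * HNNExtension.t⁻¹) = _
      rw [map_mul, map_mul, map_inv, HNNExtension.lift_t, HNNExtension.lift_of,
        Coprod.lift_apply_inl, one_mul, inv_one, mul_one]
  have hj : Function.Injective j := by
    intro x y hxy
    have h3 := congrArg ρ hxy
    have h4 : ∀ z, ρ (j z) = z := fun z => DFunLike.congr_fun hρj z
    rwa [h4, h4] at h3
  refine hC.base.of_injective _ _ j hj ?_
  refine hnn_closed hC hFb e (f.comp ρ) ?_ (hC.base.coprod _ _ (hK true) (hK false)) hQ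
  rintro _ ⟨h, rfl⟩ h3
  have h4 : f (PushoutI.base φ h) = 1 := by
    rw [← hρ1]
    have h5 : ρ (HNNExtension.of (i1 h)) = ρ0 (i1 h) := HNNExtension.lift_of _ _ _ _
    rw [← h5]
    exact h3
  have h5 : h = 1 := hf (by rw [map_one]; exact h4)
  rw [h5, map_one]

/-- **amalgams along a retract of one factor** -/
theorem amalgam_retract (hC : ClosedE C) (hFb : FbC C) (hφ : Function.Injective (φ false))
    (r : K true →* H) (hr : ∀ h, r (φ true h) = h) (hK : ∀ i, C (K i)) : C (PushoutI φ) := by
  have hφ' : ∀ i, Function.Injective (φ i) := by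
    intro i
    cases i
    · exact hφ
    · intro a b hab
      rw [← hr a, ← hr b, hab]
  let f : PushoutI φ →* K false := PushoutI.lift
    (fun i => match i with
      | true => (φ false).comp r
      | false => MonoidHom.id _) (φ false) (by
      intro i
      cases i
      · rfl
      · ext h
        show φ false (r (φ true h)) = φ false h
        rw [hr])
  refine amalgam_closed φ hC hFb hφ' f ?_ hK (hK false)
  intro a b hab
  have h1 : ∀ h, f (PushoutI.base φ h) = φ false h := fun h => PushoutI.lift_base _ _ _ _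
  have h2 : f (PushoutI.base φ a) = f (PushoutI.base φ b) := hab
  rw [h1, h1] at h2
  exact hφ h2

end amalgam

end Pool.Agent.K7.H87.FJ3
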