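import Pool.Agent.K7.H87.FJ3.Cls

/-!
# The tree of `GL₂` over a field with a discrete valuation

The points are the elements of `GL₂(K)`; the class of `g` is the class of the lattice spanned by the
columns of `g`.
-/

set_option autoImplicit false

namespace Pool.Agent.K7.H87.FJ3

open Matrix WithZero

variable {K : Type} [Field K]

/-- the determinant of the column `i` of `g` and the column `j` of `h` -/
def wdg (g h : Matrix (Fin 2) (Fin 2) K) (i j : Fin 2) : K := g 0 i * h 1 j - g 1 i * h 0 j

theorem wdg_symm (g h : Matrix (Fin 2) (Fin 2) K) (i j : Fin 2) : wdg h g j i = -wdg g h i j := by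
  unfold wdg; ring

theorem wdg_mul (k g h : Matrix (Fin 2) (Fin 2) K) (i j : Fin 2) :
    wdg (k * g) (k * h) i j = k.det * wdg g h i j := by
  unfold wdg
  simp only [Matrix.mul_apply, Fin.sum_univ_two, Matrix.det_fin_two]
  ring

theorem wdg_plucker (g h k l : Matrix (Fin 2) (Fin 2) K) (i j a b : Fin 2) :
    wdg g h i j * wdg k l a b = wdg g k i a * wdg h l j b - wdg g l i b * wdg h k j a := by
  unfold wdg; ring

theorem wdg_det (g h : Matrix (Fin 2) (Fin 2) K) :
    g.det * h.det = wdg g h 0 0 * wdg g h 1 1 - wdg g h 0 1 * wdg g h 1 0 := by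
  unfold wdg
  simp only [Matrix.det_fin_two]
  ring

variable (v : Valuation K ℤᵐ⁰)

/-- the maximum of the absolute values of the `wdg g h i j` -/
def mx (g h : Matrix (Fin 2) (Fin 2) K) : ℤᵐ⁰ :=
  max (max (v (wdg g h 0 0)) (v (wdg g h 0 1))) (max (v (wdg g h 1 0)) (v (wdg g h 1 1)))

theorem le_mx (g h : Matrix (Fin 2) (Fin 2) K) (i j : Fin 2) : v (wdg g h i j) ≤ mx v g h := by
  unfold mx
  fin_cases i <;> fin_cases j <;> simp

theorem mx_le {g h : Matrix (Fin 2) (Fin 2) K} {c : ℤᵐ⁰} (hc : ∀ i j, v (wdg g h i j) ≤ c) :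
    mx v g h ≤ c := by
  unfold mx
  exact max_le (max_le (hc 0 0) (hc 0 1)) (max_le (hc 1 0) (hc 1 1))

theorem exists_mx (g h : Matrix (Fin 2) (Fin 2) K) : ∃ i j, mx v g h = v (wdg g h i j) := by
  unfold mx
  rcases max_choice (max (v (wdg g h 0 0)) (v (wdg g h 0 1)))
    (max (v (wdg g h 1 0)) (v (wdg g h 1 1))) with h1 | h1 <;> rw [h1]
  · rcases max_choice (v (wdg g h 0 0)) (v (wdg g h 0 1)) with h2 | h2 <;> rw [h2]
    · exact ⟨0, 0, rfl⟩
    · exact ⟨0, 1, rfl⟩
  · rcases max_choice (v (wdg g h 1 0)) (v (wdg g h 1 1)) with h2 | h2 <;> rw [h2]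
    · exact ⟨1, 0, rfl⟩
    · exact ⟨1, 1, rfl⟩

theorem mx_symm (g h : Matrix (Fin 2) (Fin 2) K) : mx v g h = mx v h g := by
  apply le_antisymm
  · refine mx_le v fun i j => ?_
    rw [wdg_symm, Valuation.map_neg]
    exact le_mx v h g j i
  · refine mx_le v fun i j => ?_
    rw [wdg_symm, Valuation.map_neg]
    exact le_mx v g h j i

theorem mx_mul (k g h : Matrix (Fin 2) (Fin 2) K) :
    mx v (k * g) (k * h) = v k.det * mx v g h := by
  apply le_antisymm
  · refine mx_le v fun i j => ?_
    rw [wdg_mul, map_mul]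
    exact mul_le_mul_right (le_mx v g h i j) _
  · obtain ⟨i, j, hij⟩ := exists_mx v g h
    rw [hij, ← map_mul, ← wdg_mul]
    exact le_mx v _ _ i j

theorem mx_self (g : Matrix (Fin 2) (Fin 2) K) : mx v g g = v g.det := by
  apply le_antisymm
  · refine mx_le v fun i j => ?_
    have h1 : wdg g g i j = 0 ∨ wdg g g i j = g.det ∨ wdg g g i j = - g.det := by
      unfold wdg
      rw [Matrix.det_fin_two]
      fin_cases i <;> fin_cases j <;> simp only [Fin.zero_eta, Fin.mk_one]
      · left; ring
      · right; left; ring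
      · right; right; ring
      · left; ring
    rcases h1 with h1 | h1 | h1 <;> rw [h1]
    · rw [map_zero]; exact zero_le
    · rw [Valuation.map_neg]
  · have h1 : wdg g g 0 1 = g.det := by
      unfold wdg
      rw [Matrix.det_fin_two]
      ring
    rw [← h1]
    exact le_mx v g g 0 1

theorem mx_four (g h k l : Matrix (Fin 2) (Fin 2) K) : mx v g h * mx v k l ≤
    max (mx v g k * mx v h l) (mx v g l * mx v h k) := by
  obtain ⟨i, j, h1⟩ := exists_mx v g h
  obtain ⟨a, b, h2⟩ := exists_mx v k l
  rw [h1, h2, ← map_mul, wdg_plucker]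
  refine (Valuation.map_sub _ _ _).trans ?_
  rw [map_mul, map_mul]
  exact max_le_max (mul_le_mul' (le_mx v g k i a) (le_mx v h l j b))
    (mul_le_mul' (le_mx v g l i b) (le_mx v h k j a))

theorem mx_det (g h : Matrix (Fin 2) (Fin 2) K) : v g.det * v h.det ≤ mx v g h * mx v g h := by
  rw [← map_mul, wdg_det]
  refine (Valuation.map_sub _ _ _).trans ?_
  rw [map_mul, map_mul]
  exact max_le (mul_le_mul' (le_mx v g h 0 0) (le_mx v g h 1 1))
    (mul_le_mul' (le_mx v g h 0 1) (le_mx v g h 1 0))

variable {v}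

theorem vdet_ne (g : GL (Fin 2) K) : v g.val.det ≠ 0 := by
  rw [Valuation.ne_zero_iff]
  exact ((Matrix.isUnit_iff_isUnit_det _).1 g.isUnit).ne_zero

theorem mx_ne (g h : GL (Fin 2) K) : mx v g.val h.val ≠ 0 := by
  intro h1
  have h2 := mx_det v g.val h.val
  rw [h1, mul_zero] at h2
  exact mul_ne_zero (vdet_ne g) (vdet_ne h) (le_antisymm h2 zero_le)

variable (v)

/-- the logarithm of the absolute value of the determinant -/
noncomputable def dt (g : GL (Fin 2) K) : ℤ := log (v g.val.det)

/-- the logarithm of the maximum -/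
noncomputable def lm (g h : GL (Fin 2) K) : ℤ := log (mx v g.val h.val)

/-- the distance -/
noncomputable def ds (g h : GL (Fin 2) K) : ℕ := (2 * lm v g h - dt v g - dt v h).toNat

theorem ds_nonneg (g h : GL (Fin 2) K) : 0 ≤ 2 * lm v g h - dt v g - dt v h := by
  have h1 := (log_le_log (mul_ne_zero (vdet_ne g) (vdet_ne h))
    (mul_ne_zero (mx_ne g h) (mx_ne g h))).2 (mx_det v g.val h.val)
  rw [log_mul (vdet_ne g) (vdet_ne h), log_mul (mx_ne g h) (mx_ne g h)] at h1
  unfold lm dt
  omega

theorem ds_eq (g h : GL (Fin 2) K) : (ds v g h : ℤ) = 2 * lm v g h - dt v g - dt v h :=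
  Int.toNat_of_nonneg (ds_nonneg v g h)

theorem lm_symm (g h : GL (Fin 2) K) : lm v g h = lm v h g := by
  unfold lm; rw [mx_symm]

theorem ds_mul (k g h : GL (Fin 2) K) : ds v (k * g) (k * h) = ds v g h := by
  zify
  rw [ds_eq, ds_eq]
  unfold lm dt
  rw [Units.val_mul, Units.val_mul, mx_mul, det_mul, det_mul, map_mul, map_mul,
    log_mul (vdet_ne k) (mx_ne g h), log_mul (vdet_ne k) (vdet_ne g),
    log_mul (vdet_ne k) (vdet_ne h)]
  ring

theorem wdg_one_zero (h : Matrix (Fin 2) (Fin 2) K) (j : Fin 2) : wdg 1 h 0 j = h 1 j := by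
  unfold wdg; simp

theorem wdg_one_one (h : Matrix (Fin 2) (Fin 2) K) (j : Fin 2) : wdg 1 h 1 j = - h 0 j := by
  unfold wdg; simp

/-- the entries are bounded by the maximum -/
theorem entry_le (h : Matrix (Fin 2) (Fin 2) K) (i j : Fin 2) : v (h i j) ≤ mx v 1 h := by
  fin_cases i
  · show v (h 0 j) ≤ _
    rw [← Valuation.map_neg, ← wdg_one_one h j]
    exact le_mx v 1 h 1 j
  · show v (h 1 j) ≤ _
    rw [← wdg_one_zero h j]
    exact le_mx v 1 h 0 j

theorem mx_one_le {h : Matrix (Fin 2) (Fin 2) K} {c : ℤᵐ⁰} (hc : ∀ i j, v (h i j) ≤ c) :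
    mx v 1 h ≤ c := by
  refine mx_le v fun i j => ?_
  fin_cases i
  · show v (wdg 1 h 0 j) ≤ _
    rw [wdg_one_zero]; exact hc 1 j
  · show v (wdg 1 h 1 j) ≤ _
    rw [wdg_one_one, Valuation.map_neg]; exact hc 0 j

theorem dt_one : dt v (1 : GL (Fin 2) K) = 0 := by
  unfold dt; simp

/-- the first step, when the maximum is in the first row -/
theorem geo0 {π : K} (hπ : v π = exp (-1)) (h : GL (Fin 2) K) (i : Fin 2)
    (hi : mx v 1 h.val = v (h.val 0 i)) (hd : ds v 1 h ≠ 0) :
    ∃ p : GL (Fin 2) K, ds v 1 p = 1 ∧ ds v p h + 1 = ds v 1 h := by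
  have hM0 : mx v 1 h.val ≠ 0 := by
    have := mx_ne (v := v) 1 h
    rwa [Units.val_one] at this
  have he : h.val 0 i ≠ 0 := by
    intro h1
    rw [hi, h1, map_zero] at hM0
    exact hM0 rfl
  have hπ0 : π ≠ 0 := by
    intro h1
    rw [h1, map_zero] at hπ
    exact exp_ne_zero hπ.symm
  set c : K := h.val 1 i / h.val 0 i with hc
  have hvc : v c ≤ 1 := by
    rw [hc, map_div₀, ← hi]
    exact div_le_one_of_le₀ (entry_le v h.val 1 i) zero_le
  let p : GL (Fin 2) K := GeneralLinearGroup.mkOfDetNeZero !![1, 0; c, π] (by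
    rw [Matrix.det_fin_two_of]; simpa using hπ0)
  have hp : p.val = !![1, 0; c, π] := rfl
  have hpd : p.val.det = π := by rw [hp, Matrix.det_fin_two_of]; ring
  have hdp : dt v p = -1 := by
    unfold dt; rw [hpd, hπ, log_exp]
  have hw0 : ∀ l, wdg p.val h.val 0 l = h.val 1 l - c * h.val 0 l := by
    intro l
    unfold wdg
    rw [hp]
    simp
  have hw1 : ∀ l, wdg p.val h.val 1 l = - (π * h.val 0 l) := by
    intro l
    unfold wdg
    rw [hp]
    simp
  -- the determinant
  have hdd : (ds v 1 h : ℤ) = 2 * log (mx v 1 h.val) - dt v h := by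
    rw [ds_eq, dt_one]
    unfold lm
    rw [Units.val_one]
    ring
  have hdet : v (h.val.det) ≤ exp (-1) * mx v 1 h.val * mx v 1 h.val := by
    rw [← log_le_log (vdet_ne h) (mul_ne_zero (mul_ne_zero exp_ne_zero hM0) hM0),
      log_mul (mul_ne_zero exp_ne_zero hM0) hM0, log_mul exp_ne_zero hM0, log_exp]
    have : dt v h = log (v h.val.det) := rfl
    omega
  have hmx : mx v p.val h.val = exp (-1) * mx v 1 h.val := by
    apply le_antisymm
    · refine mx_le v fun a l => ?_
      fin_cases a
      · show v (wdg p.val h.val 0 l) ≤ _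
        rw [hw0]
        have h1 : h.val 1 l - c * h.val 0 l = 0 ∨
            h.val 1 l - c * h.val 0 l = h.val.det / h.val 0 i ∨
            h.val 1 l - c * h.val 0 l = - (h.val.det / h.val 0 i) := by
          rw [hc, Matrix.det_fin_two]
          fin_cases i <;> fin_cases l <;> simp only [Fin.zero_eta, Fin.mk_one] at he ⊢
          · left; field_simp; try ring
          · right; left; field_simp; try ring
          · right; right; field_simp; try ring
          · left; field_simp; try ring
        have h2 : v (h.val.det / h.val 0 i) ≤ exp (-1) * mx v 1 h.val := by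
          rw [map_div₀, ← hi]
          rw [div_le_iff₀ (zero_lt_iff.2 hM0)]
          exact hdet
        rcases h1 with h1 | h1 | h1 <;> rw [h1]
        · rw [map_zero]; exact zero_le
        · exact h2
        · rw [Valuation.map_neg]; exact h2
      · show v (wdg p.val h.val 1 l) ≤ _
        rw [hw1, Valuation.map_neg, map_mul, hπ]
        exact mul_le_mul_right (entry_le v h.val 0 l) _
    · have h1 := le_mx v p.val h.val 1 i
      rw [hw1, Valuation.map_neg, map_mul, hπ, ← hi] at h1
      exact h1
  refine ⟨p, ?_, ?_⟩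
  · zify
    rw [ds_eq, dt_one, hdp]
    have h1 : mx v 1 p.val = 1 := by
      apply le_antisymm
      · refine mx_one_le v fun a b => ?_
        rw [hp]
        fin_cases a <;> fin_cases b
        · simp
        · simp
        · simpa using hvc
        · show v π ≤ 1
          rw [hπ, ← exp_zero, exp_le_exp]
          omega
      · have h2 := entry_le v p.val 0 0
        rw [hp] at h2 ⊢
        simpa using h2
    unfold lm
    rw [Units.val_one, h1, log_one]
    ring
  · zify
    rw [hdd, ds_eq, hdp]
    unfold lm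
    rw [hmx, log_mul exp_ne_zero hM0, log_exp]
    ring

/-- the first step -/
theorem geo1 {π : K} (hπ : v π = exp (-1)) (h : GL (Fin 2) K) (hd : ds v 1 h ≠ 0) :
    ∃ p : GL (Fin 2) K, ds v 1 p = 1 ∧ ds v p h + 1 = ds v 1 h := by
  obtain ⟨a, i, hai⟩ := exists_mx v 1 h.val
  by_cases ha : a = 1
  · subst ha
    rw [wdg_one_one, Valuation.map_neg] at hai
    exact geo0 v hπ h i hai hd
  · have ha0 : a = 0 := by
      fin_cases a
      · rfl
      · exact absurd rfl ha
    subst ha0
    rw [wdg_one_zero] at hai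
    let s : GL (Fin 2) K := GeneralLinearGroup.mkOfDetNeZero !![0, 1; 1, 0] (by
      rw [Matrix.det_fin_two_of]; simp)
    have hs : s.val = !![0, 1; 1, 0] := rfl
    have hsh : ∀ j, (s * h).val 0 j = h.val 1 j ∧ (s * h).val 1 j = h.val 0 j := by
      intro j
      rw [Units.val_mul, hs]
      constructor
      · simp [Matrix.mul_apply, Fin.sum_univ_two]
      · simp [Matrix.mul_apply, Fin.sum_univ_two]
    have hms : mx v 1 (s * h).val = mx v 1 h.val := by
      apply le_antisymm
      · refine mx_one_le v fun a b => ?_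
        fin_cases a
        · show v ((s * h).val 0 b) ≤ _
          rw [(hsh b).1]; exact entry_le v _ _ _
        · show v ((s * h).val 1 b) ≤ _
          rw [(hsh b).2]; exact entry_le v _ _ _
      · refine mx_one_le v fun a b => ?_
        fin_cases a
        · show v (h.val 0 b) ≤ _
          rw [← (hsh b).2]; exact entry_le v _ _ _
        · show v (h.val 1 b) ≤ _
          rw [← (hsh b).1]; exact entry_le v _ _ _
    have hds : v (s * h).val.det = v h.val.det := by
      rw [Units.val_mul, det_mul, map_mul, hs, Matrix.det_fin_two_of]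
      simp
    have h1s : ds v 1 (s * h) = ds v 1 h := by
      zify
      rw [ds_eq, ds_eq]
      unfold lm dt
      rw [Units.val_one, hms, hds]
    obtain ⟨p, hp1, hp2⟩ := geo0 v hπ (s * h) i (by rw [hms, (hsh i).1]; exact hai)
      (by rw [h1s]; exact hd)
    have hsp : ds v s p = ds v 1 p := by
      have e1 : mx v s.val p.val = mx v 1 p.val := by
        have e2 : ∀ j, wdg s.val p.val 0 j = - p.val 0 j ∧ wdg s.val p.val 1 j = p.val 1 j := by
          intro j
          unfold wdg
          rw [hs]
          simp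
        apply le_antisymm
        · refine mx_le v fun a b => ?_
          fin_cases a
          · show v (wdg s.val p.val 0 b) ≤ _
            rw [(e2 b).1, Valuation.map_neg]; exact entry_le v _ _ _
          · show v (wdg s.val p.val 1 b) ≤ _
            rw [(e2 b).2]; exact entry_le v _ _ _
        · refine mx_one_le v fun a b => ?_
          fin_cases a
          · show v (p.val 0 b) ≤ _
            rw [← Valuation.map_neg, ← (e2 b).1]; exact le_mx v _ _ _ _
          · show v (p.val 1 b) ≤ _
            rw [← (e2 b).2]; exact le_mx v _ _ _ _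
      zify
      rw [ds_eq, ds_eq]
      unfold lm dt
      rw [Units.val_one, e1, hs, Matrix.det_fin_two_of]
      simp
    refine ⟨s⁻¹ * p, ?_, ?_⟩
    · have := ds_mul v s 1 (s⁻¹ * p)
      rw [mul_one, mul_inv_cancel_left] at this
      rw [← this, hsp, hp1]
    · have := ds_mul v s (s⁻¹ * p) h
      rw [mul_inv_cancel_left] at this
      rw [← this, hp2, h1s]

/-- `GL₂(K)` with the distance `ds` is a pseudometric tree -/
theorem pt {π : K} (hπ : v π = exp (-1)) : PT (GL (Fin 2) K) (ds v) where
  refl g := by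
    zify
    rw [ds_eq]
    unfold lm dt
    rw [mx_self]
    ring
  symm g h := by
    zify
    rw [ds_eq, ds_eq, lm_symm]
    ring
  even g h k := by
    rw [← Int.even_coe_nat]
    push_cast
    rw [ds_eq, ds_eq, ds_eq]
    exact ⟨lm v g h + lm v h k + lm v g k - dt v g - dt v h - dt v k, by ring⟩
  four g h k l := by
    have h1 := mx_four v g.val h.val k.val l.val
    zify
    rw [ds_eq, ds_eq, ds_eq, ds_eq, ds_eq, ds_eq]
    have e0 : log (mx v g.val h.val * mx v k.val l.val) = lm v g h + lm v k l :=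
      log_mul (mx_ne g h) (mx_ne k l)
    have e1 : log (mx v g.val k.val * mx v h.val l.val) = lm v g k + lm v h l :=
      log_mul (mx_ne g k) (mx_ne h l)
    have e2 : log (mx v g.val l.val * mx v h.val k.val) = lm v g l + lm v h k :=
      log_mul (mx_ne g l) (mx_ne h k)
    rcases le_max_iff.1 h1 with h2 | h2
    · have h3 := (log_le_log (mul_ne_zero (mx_ne g h) (mx_ne k l))
        (mul_ne_zero (mx_ne g k) (mx_ne h l))).2 h2
      rw [e0, e1] at h3
      refine le_max_of_le_left ?_
      omega
    · have h3 := (log_le_log (mul_ne_zero (mx_ne g h) (mx_ne k l))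
        (mul_ne_zero (mx_ne g l) (mx_ne h k))).2 h2
      rw [e0, e2] at h3
      refine le_max_of_le_right ?_
      omega
  geo g h hgh := by
    have h0 : ds v 1 (g⁻¹ * h) = ds v g h := by
      have := ds_mul v g 1 (g⁻¹ * h)
      rwa [mul_one, mul_inv_cancel_left, eq_comm] at this
    obtain ⟨p, h1, h2⟩ := geo1 v hπ (g⁻¹ * h) (by rwa [h0])
    refine ⟨g * p, ?_, ?_⟩
    · have := ds_mul v g 1 p
      rw [mul_one] at this
      rw [this, h1]
    · have := ds_mul v g p (g⁻¹ * h)
      rw [mul_inv_cancel_left] at this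
      rw [this, h2, h0]

end Pool.Agent.K7.H87.FJ3
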