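import Pool.Agent.K7.H87.FJ3.Dec

/-!
# The closure theorem for nested families
-/

set_option autoImplicit false

namespace Pool.Agent.K7.H87.FJ3

open Pointwise Pool.Agent.R684.FP Pool.Agent.Y110.FJ

variable {C : ∀ (G : Type) [Group G], Prop} {G V : Type} [Group G] [MulAction G V]
  {F : Set (Set V)}

theorem st_conj {hF : Nst G F} {N : Subgroup G} [hN : N.Normal] (g : G) (v : V) (x : G) :
    x ∈ st hF N v ↔ g * x * g⁻¹ ∈ st hF N (g • v) := by
  rw [mem_st, mem_st]
  have h1 : (g * x * g⁻¹) • g • v = g • x • v := by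
    rw [smul_smul, smul_smul]
    congr 1
    group
  rw [h1, Sim.smul_iff hF]
  constructor
  · rintro ⟨h2, h3⟩
    exact ⟨hN.conj_mem x h2 g, h3⟩
  · rintro ⟨h2, h3⟩
    have h4 := hN.conj_mem _ h2 g⁻¹
    have h5 : g⁻¹ * (g * x * g⁻¹) * g⁻¹⁻¹ = x := by group
    rw [h5] at h4
    exact ⟨h4, h3⟩

/-- **the closure theorem** -/
theorem nested_closed (hC : ClosedE C) (hFb : FbC C) (hF : Nst G F) (N : Subgroup G) [N.Normal]
    (hfree : ∀ H ∈ F, ∀ n ∈ N, n • H = H → n = 1) (hinv : ∀ H ∈ F, ∀ n ∈ N, n • H ≠ Hᶜ) (v0 : V)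
    (h0 : ∀ n ∈ N, Sim F (n • v0) v0 → n = 1) (hQ : C (G ⧸ N))
    (hst : ∀ (v : V) (g : G), (∀ x, x ∈ st hF N v ↔ g * x * g⁻¹ ∈ st hF N v) →
      C ↥(st hF N v ⊔ Subgroup.zpowers g)) : C G := by
  obtain ⟨I, A, S, h1, h2, h3, h4⟩ := decomposition hF N hfree hinv v0 h0
  refine main_all hC hFb hQ A S h1 h2 ?_ ?_
  · intro i hi g
    obtain ⟨v, hv⟩ := h3 i hi
    obtain ⟨j, hj, n, hn, h5⟩ := h4 (g • v)
    refine ⟨j, hj, n, hn, fun x => ?_⟩
    rw [hv, st_conj g v x, h5]
  · intro i hi g hg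
    obtain ⟨v, hv⟩ := h3 i hi
    rw [hv] at hg ⊢
    exact hst v g hg

/-! ### pseudometric trees -/

/-- a pseudometric with integral values for which the quotient metric space is the set of the vertices of
a tree -/
structure PT (V : Type) (d : V → V → ℕ) : Prop where
  refl : ∀ x, d x x = 0
  symm : ∀ x y, d x y = d y x
  even : ∀ x y z, Even (d x y + d y z + d x z)
  four : ∀ x y z w, d x y + d z w ≤ max (d x z + d y w) (d x w + d y z)
  geo : ∀ x y, d x y ≠ 0 → ∃ z, d x z = 1 ∧ d z y + 1 = d x y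

namespace PT

variable {d : V → V → ℕ} (h : PT V d)

include h

theorem tri (x y z : V) : d x y ≤ d x z + d z y := by
  have h1 := h.four x y z z
  rw [h.refl, h.symm y z] at h1
  omega

theorem eq_of_zero {x y : V} (hxy : d x y = 0) (z : V) : d z x = d z y := by
  have h1 := h.tri z x y
  have h2 := h.tri z y x
  rw [h.symm y x] at h1
  omega

theorem adj {x y : V} (hxy : d x y = 1) (z : V) : d z y = d z x + 1 ∨ d z x = d z y + 1 := by
  have h1 := h.tri z x y
  have h2 := h.tri z y x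
  have h3 := h.even z x y
  rw [h.symm y x] at h1
  rw [hxy] at h1 h2 h3
  obtain ⟨k, hk⟩ := h3
  omega

omit h in
/-- the half-tree -/
def half (d : V → V → ℕ) (x y : V) : Set V := {z | d z y < d z x}

omit [Group G] [MulAction G V] h in
theorem mem_half {x y z : V} : z ∈ half d x y ↔ d z y < d z x := Iff.rfl

theorem compl_half {x y : V} (hxy : d x y = 1) : (half d x y)ᶜ = half d y x := by
  ext z
  rw [Set.mem_compl_iff, mem_half, mem_half]
  have := h.adj hxy z
  omega

theorem cross {x y : V} (hxy : d x y = 1) {p s : V} (hp : p ∈ half d x y)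
    (hs : s ∉ half d x y) : d p s = d p y + 1 + d x s := by
  rw [mem_half] at hp hs
  have h1 := h.four p x y s
  have h2 := h.adj hxy p
  have h3 := h.adj hxy s
  have h4 := h.tri p s y
  have h5 := h.tri y s x
  have h6 := h.symm s x
  have h7 := h.symm s y
  have h8 := h.symm y x
  omega

omit h in
/-- the family of the half-trees -/
def fam (d : V → V → ℕ) : Set (Set V) := {H | ∃ x y, d x y = 1 ∧ H = half d x y}

theorem half_congr {x y x' y' : V} (hx : d x x' = 0) (hy : d y y' = 0) :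
    half d x y = half d x' y' := by
  ext z
  rw [mem_half, mem_half, h.eq_of_zero hx, h.eq_of_zero hy]

theorem bd {x y : V} (hxy : d x y = 1) : Bd (fam d) (half d x y) x y := by
  refine ⟨?_, ?_, ?_⟩
  · rw [mem_half, h.refl]; omega
  · rw [mem_half, h.refl, h.symm, hxy]; omega
  · rintro K ⟨x', y', hxy', rfl⟩ hx hy
    have h1 := h.cross hxy' hy hx
    rw [h.symm y x, hxy] at h1
    apply h.half_congr
    · omega
    · rw [h.symm]; omega

theorem nested {H K : Set V} (hH : H ∈ fam d) (hK : K ∈ fam d) {a b c e : V} (ha : a ∈ H)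
    (ha' : a ∈ K) (hb : b ∈ H) (hb' : b ∉ K) (hc : c ∉ H) (hc' : c ∈ K) (he : e ∉ H)
    (he' : e ∉ K) : False := by
  obtain ⟨x, y, hxy, rfl⟩ := hH
  obtain ⟨x', y', hxy', rfl⟩ := hK
  have hbd := h.bd hxy
  have hKF : half d x' y' ∈ fam d := ⟨x', y', hxy', rfl⟩
  have e1 := hb
  have e2 := he
  have e3 := ha
  have e4 := hc
  rw [mem_half] at e1 e2 e3 e4
  have f1 := h.adj hxy b
  have f2 := h.adj hxy e
  have f3 := h.adj hxy a
  have f4 := h.adj hxy c
  by_cases hy : y ∈ half d x' y'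
  · by_cases hx : x ∈ half d x' y'
    · have h1 := h.cross hxy' hy hb'
      have h2 := h.cross hxy' hx hb'
      have h3 := h.cross hxy' hy he'
      have h4 := h.cross hxy' hx he'
      rw [h.symm y b] at h1
      rw [h.symm x b] at h2
      rw [h.symm y e] at h3
      rw [h.symm x e] at h4
      omega
    · rw [hbd.2.2 _ hKF hx hy] at hb'
      exact hb' hb
  · by_cases hx : x ∈ half d x' y'
    · have h1 : (half d x' y')ᶜ = half d x y := by
        refine hbd.2.2 _ ?_ (fun h => h hx) hy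
        exact ⟨y', x', by rw [h.symm, hxy'], h.compl_half hxy'⟩
      rw [← h1] at ha
      exact ha ha'
    · have h1 := h.cross hxy' ha' hy
      have h2 := h.cross hxy' ha' hx
      have h3 := h.cross hxy' hc' hy
      have h4 := h.cross hxy' hc' hx
      omega

theorem finite (x y : V) : {H | H ∈ fam d ∧ x ∉ H ∧ y ∈ H}.Finite := by
  obtain ⟨n, hn⟩ : ∃ n, n = d x y := ⟨_, rfl⟩
  induction n generalizing x with
  | zero =>
    refine Set.Finite.subset Set.finite_empty ?_
    rintro _ ⟨⟨a, b, hab, rfl⟩, h1, h2⟩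
    rw [mem_half] at h1 h2
    have h3 := h.eq_of_zero hn.symm a
    have h4 := h.eq_of_zero hn.symm b
    rw [h.symm a x, h.symm a y] at h3
    rw [h.symm b x, h.symm b y] at h4
    omega
  | succ n ih =>
    obtain ⟨z, hz1, hz2⟩ := h.geo x y (by omega)
    refine ((ih z (by omega)).union (Set.finite_singleton (half d x z))).subset ?_
    rintro H ⟨hH, h1, h2⟩
    by_cases hz : z ∈ H
    · right
      exact (h.bd hz1).2.2 H hH h1 hz
    · left
      exact ⟨hH, hz, h2⟩

theorem smul_half (hd : ∀ (g : G) x y, d (g • x) (g • y) = d x y) (g : G) (x y : V) :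
    g • half d x y = half d (g • x) (g • y) := by
  ext z
  rw [mem_smul', mem_half, mem_half]
  have h1 := hd g (g⁻¹ • z) x
  have h2 := hd g (g⁻¹ • z) y
  rw [smul_inv_smul] at h1 h2
  rw [h1, h2]

theorem nst (hd : ∀ (g : G) x y, d (g • x) (g • y) = d x y) : Nst G (fam d) where
  inv := by
    rintro g _ ⟨x, y, hxy, rfl⟩
    exact ⟨g • x, g • y, by rw [hd, hxy], h.smul_half hd g x y⟩
  cpl := by
    rintro _ ⟨x, y, hxy, rfl⟩
    exact ⟨y, x, by rw [h.symm, hxy], h.compl_half hxy⟩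
  nested := fun H hH K hK a b c e ha ha' hb hb' hc hc' he he' =>
    h.nested hH hK ha ha' hb hb' hc hc' he he'
  fin := h.finite
  ends := by
    rintro _ ⟨x, y, hxy, rfl⟩
    exact ⟨x, y, h.bd hxy⟩

end PT

theorem Bd.mono {F F' : Set (Set V)} (hFF : F' ⊆ F) {H : Set V} {x y : V} (h : Bd F H x y) :
    Bd F' H x y := ⟨h.1, h.2.1, fun K hK => h.2.2 K (hFF hK)⟩

theorem Nst.sub {F F' : Set (Set V)} (hF : Nst G F) (hFF : F' ⊆ F)
    (hinv : ∀ (g : G), ∀ H ∈ F', g • H ∈ F') (hcpl : ∀ H ∈ F', Hᶜ ∈ F') : Nst G F' where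
  inv := hinv
  cpl := hcpl
  nested := fun H hH K hK => hF.nested H (hFF hH) K (hFF hK)
  fin := fun x y => (hF.fin x y).subset fun H hH => ⟨hFF hH.1, hH.2⟩
  ends := fun H hH => by
    obtain ⟨x, y, h⟩ := hF.ends H (hFF hH)
    exact ⟨x, y, h.mono hFF⟩

/-- the half-spaces with trivial stabilizer in `N` -/
def tame (F : Set (Set V)) (N : Subgroup G) : Set (Set V) :=
  {H | H ∈ F ∧ ∀ n ∈ N, n • H = H → n = 1}

theorem tame_sub (F : Set (Set V)) (N : Subgroup G) : tame F N ⊆ F := fun _ h => h.1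

theorem nst_tame (hF : Nst G F) (N : Subgroup G) [hN : N.Normal] : Nst G (tame F N) := by
  refine hF.sub (tame_sub F N) ?_ ?_
  · rintro g H ⟨hH, h1⟩
    refine ⟨hF.inv g H hH, fun n hn h2 => ?_⟩
    have h3 := h1 (g⁻¹ * n * g) (by
      have := hN.conj_mem n hn g⁻¹
      rwa [inv_inv] at this) (by
      rw [mul_smul, mul_smul, h2, inv_smul_smul])
    have h4 : n = g * (g⁻¹ * n * g) * g⁻¹ := by group
    rw [h4, h3]
    group
  · rintro H ⟨hH, h1⟩
    refine ⟨hF.cpl H hH, fun n hn h2 => h1 n hn ?_⟩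
    rw [smul_cpl] at h2
    exact compl_injective h2

/-- on a path all of whose edges are not tame -/
theorem PT.path (d : V → V → ℕ) (h : PT V d) {F' : Set (Set V)} (hF' : F' ⊆ PT.fam d)
    {P : V → V → Prop} (hP0 : ∀ x y, d x y = 0 → P x y) (hPt : ∀ x y z, P x y → P y z → P x z)
    (hP1 : ∀ x y, d x y = 1 → PT.half d x y ∉ F' → P x y) {x y : V} (hs : Sim F' x y) :
    P x y := by
  obtain ⟨n, hn⟩ : ∃ n, n = d x y := ⟨_, rfl⟩
  induction n generalizing x with
  | zero => exact hP0 x y hn.symm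
  | succ n ih =>
    obtain ⟨z, hz1, hz2⟩ := h.geo x y (by omega)
    have hbd := h.bd hz1
    -- `z` and `y` are on the same side
    have hy : y ∈ PT.half d x z := by
      rw [PT.mem_half, h.symm y z, h.symm y x]
      omega
    have h1 : PT.half d x z ∉ F' := fun h2 => hbd.1 ((hs _ h2).2 hy)
    have h3 : Sim F' z y := by
      intro K hK
      have hbd' := hbd
      by_cases hx : x ∈ K <;> by_cases hz : z ∈ K
      · exact ⟨fun _ => (hs K hK).1 hx, fun _ => hz⟩
      · exfalso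
        have h4 : Kᶜ = PT.half d x z := by
          obtain ⟨a, b, hab, rfl⟩ := hF' hK
          exact hbd.2.2 _ ⟨b, a, by rw [h.symm, hab], h.compl_half hab⟩ (fun h => h hx) hz
        have h5 : y ∈ K := (hs K hK).1 hx
        rw [← h4] at hy
        exact hy h5
      · exfalso
        have h4 := hbd.2.2 K (hF' hK) hx hz
        rw [← h4] at h1
        exact h1 hK
      · exact ⟨fun h => absurd h hz, fun h => absurd ((hs K hK).2 h) hx⟩
    exact hPt x z y (hP1 x z hz1 h1) (ih h3 (by omega))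

end Pool.Agent.K7.H87.FJ3
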