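import Pool.Agent.K7.H87.FJ3.Pong
import Pool.Agent.R684.FP.Main

/-!
# The decomposition

`N` is a subgroup of `G` which acts freely on the half-spaces and without inversions.
-/

set_option autoImplicit false

namespace Pool.Agent.K7.H87.FJ3

open Pointwise Pool.Agent.R684.FP

variable {G V : Type} [Group G] [MulAction G V] {F : Set (Set V)}

/-- the stabilizer in `N` of the class of a vertex -/
def st (hF : Nst G F) (N : Subgroup G) (v : V) : Subgroup G where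
  carrier := {n | n ∈ N ∧ Sim F (n • v) v}
  one_mem' := ⟨N.one_mem, by rw [one_smul]; exact Sim.refl _⟩
  mul_mem' := by
    rintro a b ⟨ha, ha'⟩ ⟨hb, hb'⟩
    refine ⟨N.mul_mem ha hb, ?_⟩
    rw [mul_smul]
    exact (hb'.smul hF a).trans ha'
  inv_mem' := by
    rintro a ⟨ha, ha'⟩
    refine ⟨N.inv_mem ha, ?_⟩
    have := (ha'.smul hF a⁻¹).symm
    rwa [inv_smul_smul] at this

theorem mem_st {hF : Nst G F} {N : Subgroup G} {v : V} {n : G} :
    n ∈ st hF N v ↔ n ∈ N ∧ Sim F (n • v) v := Iff.rfl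

theorem smul_cpl (g : G) (H : Set V) : g • Hᶜ = (g • H)ᶜ := Set.smul_set_compl

/-- two half-spaces define the same edge modulo `N` -/
def edg (F : Set (Set V)) (N : Subgroup G) : Setoid {H // H ∈ F} where
  r H K := ∃ n ∈ N, (K : Set V) = n • (H : Set V) ∨ (K : Set V) = n • (H : Set V)ᶜ
  iseqv := by
    refine ⟨?_, ?_, ?_⟩
    · intro H
      exact ⟨1, N.one_mem, Or.inl (by rw [one_smul])⟩
    · rintro H K ⟨n, hn, h | h⟩
      · exact ⟨n⁻¹, N.inv_mem hn, Or.inl (by rw [h, inv_smul_smul])⟩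
      · exact ⟨n⁻¹, N.inv_mem hn, Or.inr (by
          rw [h, smul_cpl n, compl_compl, inv_smul_smul])⟩
    · rintro H K L ⟨n, hn, h | h⟩ ⟨m, hm, h' | h'⟩
      · exact ⟨m * n, N.mul_mem hm hn, Or.inl (by rw [h', h, mul_smul])⟩
      · exact ⟨m * n, N.mul_mem hm hn, Or.inr (by rw [h', h, mul_smul, smul_cpl n])⟩
      · exact ⟨m * n, N.mul_mem hm hn, Or.inr (by rw [h', h, mul_smul])⟩
      · exact ⟨m * n, N.mul_mem hm hn, Or.inl (by
          rw [h', h, mul_smul, smul_cpl n, compl_compl])⟩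

/-- the choice of a representative of the class of an edge -/
structure Ch (F : Set (Set V)) (N : Subgroup G) (R : Set V) (q : Quotient (edg F N)) where
  H : Set V
  hH : H ∈ F
  eq : (Quotient.mk (edg F N) ⟨H, hH⟩) = q
  r : V
  hr : r ∈ R
  r' : V
  hr' : r' ∈ R
  n : G
  hn : n ∈ N
  bd : Bd F H r (n • r')
  alt : n = 1 ∨ ∀ K (hK : K ∈ F), (Quotient.mk (edg F N) ⟨K, hK⟩) = q → ∀ a ∈ R, ∀ b ∈ R,
    ¬ Bd F K a b

theorem exists_ch (hF : Nst G F) (N : Subgroup G) {R : Set V}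
    (hfull : ∀ v, ∃ n ∈ N, ∃ r ∈ R, Sim F (n • v) r) (q : Quotient (edg F N)) :
    Nonempty (Ch F N R q) := by
  by_cases h : ∃ K, ∃ hK : K ∈ F, (Quotient.mk (edg F N) ⟨K, hK⟩) = q ∧ ∃ a ∈ R, ∃ b ∈ R,
      Bd F K a b
  · obtain ⟨K, hK, hq, a, ha, b, hb, hab⟩ := h
    exact ⟨⟨K, hK, hq, a, ha, b, hb, 1, N.one_mem, by rwa [one_smul], Or.inl rfl⟩⟩
  · push Not at h
    obtain ⟨⟨K, hK⟩, rfl⟩ := Quotient.exists_rep q
    obtain ⟨x, y, hxy⟩ := hF.ends K hK
    obtain ⟨n, hn, r, hr, hnr⟩ := hfull x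
    obtain ⟨m, hm, r', hr', hmr⟩ := hfull (n • y)
    have h1 : Bd F (n • K) r (m⁻¹ • r') := by
      refine (hxy.smul hF n).congr (hF.inv n K hK) hnr ?_
      have := hmr.smul hF m⁻¹
      rwa [inv_smul_smul] at this
    refine ⟨⟨n • K, hF.inv n K hK, ?_, r, hr, r', hr', m⁻¹, N.inv_mem hm, h1,
      Or.inr fun K' hK' hq a ha b hb => h K' hK' hq a ha b hb⟩⟩
    apply Quotient.sound
    exact ⟨n⁻¹, N.inv_mem hn, Or.inl (by rw [inv_smul_smul])⟩

section dec

variable (hF : Nst G F) (N : Subgroup G) (hfree : ∀ H ∈ F, ∀ n ∈ N, n • H = H → n = 1)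
  (hinv : ∀ H ∈ F, ∀ n ∈ N, n • H ≠ Hᶜ) {R : Set V} (hT : Tr F N R)
  (hfull : ∀ v, ∃ n ∈ N, ∃ r ∈ R, Sim F (n • v) r) (ch : ∀ q : Quotient (edg F N), Ch F N R q)
  (v0 : V) (hv0 : v0 ∈ R) (h0 : ∀ n ∈ N, Sim F (n • v0) v0 → n = 1)

/-- the basic half-spaces at the vertex `r` -/
def Basic {N : Subgroup G} {R : Set V} (ch : ∀ q : Quotient (edg F N), Ch F N R q)
    (r : V) (B : Set V) : Prop :=
  ∃ q, (B = (ch q).H ∧ (ch q).r = r) ∨ (B = (ch q).n⁻¹ • (ch q).Hᶜ ∧ (ch q).r' = r)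

include hF in
theorem Basic.mem {r : V} {B : Set V} (h : Basic ch r B) : B ∈ F := by
  obtain ⟨q, ⟨rfl, _⟩ | ⟨rfl, _⟩⟩ := h
  · exact (ch q).hH
  · exact hF.inv _ _ (hF.cpl _ (ch q).hH)

include hF in
theorem Basic.bd {r : V} {B : Set V} (h : Basic ch r B) : ∃ y, Bd F B r y := by
  obtain ⟨q, ⟨rfl, rfl⟩ | ⟨rfl, rfl⟩⟩ := h
  · exact ⟨_, (ch q).bd⟩
  · have h1 := ((ch q).bd.cpl hF).smul hF (ch q).n⁻¹
    rw [inv_smul_smul] at h1
    exact ⟨_, h1⟩

theorem ch_class {q p : Quotient (edg F N)} {m : G} (hm : m ∈ N)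
    (h : (ch p).H = m • (ch q).H ∨ (ch p).H = m • (ch q).Hᶜ) : q = p := by
  rw [← (ch q).eq, ← (ch p).eq]
  apply Quotient.sound
  exact ⟨m, hm, h⟩

include hF hfree hinv in
theorem basic_eq {r r' : V} {B B' : Set V} (h : Basic ch r B) (h' : Basic ch r' B') {m : G}
    (hm : m ∈ N) (hB : B' = m • B) : m = 1 := by
  have hF' := hF.cpl
  obtain ⟨q, hq⟩ := h
  obtain ⟨p, hp⟩ := h'
  rcases hq with ⟨rfl, _⟩ | ⟨rfl, _⟩ <;> rcases hp with ⟨rfl, _⟩ | ⟨rfl, _⟩
  · have h1 := ch_class N ch hm (Or.inl hB)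
    subst h1
    exact hfree _ (ch q).hH m hm hB.symm
  · have h2 : (ch p).H = ((ch p).n * m) • (ch q).Hᶜ := by
      rw [mul_smul, smul_cpl m, ← hB, ← smul_cpl, compl_compl, smul_inv_smul]
    have h1 := ch_class N ch (N.mul_mem (ch p).hn hm) (Or.inr h2)
    subst h1
    exfalso
    apply hinv _ (ch q).hH _ (N.mul_mem (ch q).hn hm)
    have h3 := congrArg compl h2
    rw [← smul_cpl, compl_compl] at h3
    exact h3.symm
  · have h2 : (ch p).H = (m * (ch q).n⁻¹) • (ch q).Hᶜ := by rw [hB, mul_smul]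
    have h1 := ch_class N ch (N.mul_mem hm (N.inv_mem (ch q).hn)) (Or.inr h2)
    subst h1
    exfalso
    apply hinv _ (ch q).hH _ (N.mul_mem hm (N.inv_mem (ch q).hn))
    have h3 := congrArg compl h2
    rw [← smul_cpl, compl_compl] at h3
    exact h3.symm
  · have h2 : (ch p).H = ((ch p).n * m * (ch q).n⁻¹) • (ch q).H := by
      have h3 : (ch p).Hᶜ = ((ch p).n * m * (ch q).n⁻¹) • (ch q).Hᶜ := by
        rw [mul_smul, mul_smul, ← hB, smul_inv_smul]
      have h4 := congrArg compl h3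
      rwa [← smul_cpl, compl_compl, compl_compl] at h4
    have h5 := N.mul_mem (N.mul_mem (ch p).hn hm) (N.inv_mem (ch q).hn)
    have h1 := ch_class N ch h5 (Or.inl h2)
    subst h1
    have h6 := hfree _ (ch q).hH _ h5 h2.symm
    have h7 : m = (ch q).n⁻¹ * ((ch q).n * m * (ch q).n⁻¹) * (ch q).n := by group
    rw [h7, h6]
    group

include hT in
/-- every half-space at `r` is a translate of a basic one -/
theorem dart {K : Set V} (hK : K ∈ F) {r y : V} (hr : r ∈ R) (hb : Bd F K r y) :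
    ∃ m ∈ st hF N r, ∃ B, Basic ch r B ∧ K = m • B := by
  obtain ⟨q, hq⟩ : ∃ q, q = Quotient.mk (edg F N) ⟨K, hK⟩ := ⟨_, rfl⟩
  have h1 := (ch q).eq
  rw [hq] at h1
  have h2 := Quotient.exact h1
  rw [← hq] at h2
  obtain ⟨m, hm, h3⟩ : ∃ m ∈ N, K = m • (ch q).H ∨ K = m • (ch q).Hᶜ := h2
  rcases h3 with h3 | h3
  · have h4 : Sim F (m • (ch q).r) r := by
      have h5 := ((ch q).bd.smul hF m)
      rw [← h3] at h5
      exact h5.unique hF hK hb
    have h5 := hT.one _ (ch q).hr r hr m hm h4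
    rw [h5] at h4
    exact ⟨m, ⟨hm, h4⟩, (ch q).H, ⟨q, Or.inl ⟨rfl, h5⟩⟩, h3⟩
  · have h4 : Sim F ((m * (ch q).n) • (ch q).r') r := by
      have h5 := (((ch q).bd.cpl hF).smul hF m)
      rw [← h3] at h5
      rw [mul_smul]
      exact h5.unique hF hK hb
    have h6 := N.mul_mem hm (ch q).hn
    have h5 := hT.one _ (ch q).hr' r hr _ h6 h4
    rw [h5] at h4
    refine ⟨m * (ch q).n, ⟨h6, h4⟩, (ch q).n⁻¹ • (ch q).Hᶜ, ⟨q, Or.inr ⟨rfl, h5⟩⟩, ?_⟩
    rw [h3, mul_smul, smul_inv_smul]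

/-- every element of the class of a translate of a basic half-space -/
theorem Basic.cls {r : V} {B : Set V} (hB : B ∈ F) (h : Basic ch r B) : ∃ q,
    Quotient.mk (edg F N) ⟨B, hB⟩ = q ∧
    ((B = (ch q).H ∧ (ch q).r = r) ∨ (B = (ch q).n⁻¹ • (ch q).Hᶜ ∧ (ch q).r' = r)) := by
  obtain ⟨q, hq⟩ := h
  refine ⟨q, ?_, hq⟩
  have h1 := (ch q).eq
  rw [← h1]
  apply Quotient.sound
  show ∃ n ∈ N, (ch q).H = n • B ∨ (ch q).H = n • Bᶜ
  rcases hq with ⟨h2, _⟩ | ⟨h2, _⟩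
  · exact ⟨1, N.one_mem, Or.inl (by rw [one_smul, h2])⟩
  · refine ⟨(ch q).n, (ch q).hn, Or.inr ?_⟩
    rw [h2, smul_cpl, smul_inv_smul, compl_compl]

include hF hfree hT in
/-- a nontrivial translate of a basic half-space contains no vertex of the transversal -/
theorem key {r : V} (hr : r ∈ R) {m : G} (hm : m ∈ st hF N r) (hm1 : m ≠ 1) {B : Set V}
    (hB : Basic ch r B) {s : V} (hs : s ∈ R) : s ∉ m • B := by
  intro hsm
  have hBF := hB.mem hF N ch
  obtain ⟨y, hy⟩ := hB.bd hF N ch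
  have hmB := hF.inv m B hBF
  have h1 : Bd F (m • B) r (m • y) := (hy.smul hF m).congr hmB hm.2 (Sim.refl _)
  obtain ⟨a, ha, b, hb, hab⟩ := hT.con _ hmB r hr s hs h1.1 hsm
  have h2 := hab.unique hF hmB h1
  have h3 : a = r := by
    refine hT.one a ha r hr 1 N.one_mem ?_
    rwa [one_smul]
  subst h3
  obtain ⟨q, hq, hBq⟩ := hB.cls N ch hBF
  have hn1 : (ch q).n = 1 := by
    rcases (ch q).alt with h | h
    · exact h
    · exfalso
      refine h (m • B) hmB ?_ a ha b hb hab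
      rw [← hq]
      apply Quotient.sound
      exact ⟨m⁻¹, N.inv_mem hm.1, Or.inl (by rw [inv_smul_smul])⟩
  -- the terminal vertex of `B` is in `R`
  obtain ⟨c, hc, hc'⟩ : ∃ c ∈ R, Bd F B a c := by
    rcases hBq with ⟨h4, h5⟩ | ⟨h4, h5⟩
    · refine ⟨_, (ch q).hr', ?_⟩
      have := (ch q).bd
      rw [hn1, one_smul, h5] at this
      rwa [h4]
    · refine ⟨_, (ch q).hr, ?_⟩
      have := ((ch q).bd).cpl hF
      rw [hn1, one_smul, h5] at this
      rw [h4, hn1, inv_one, one_smul]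
      exact this
  have h6 := (hc'.smul hF m).unique' hF hmB hab
  have h7 := hT.one c hc b hb m hm.1 h6
  subst h7
  have h8 : Bd F (m • B) a c := hab
  have h9 := h8.2.2 B hBF hc'.1 hc'.2.1
  exact hm1 (hfree B hBF m hm.1 h9.symm)

/-- the half-space `K` is where `x` leaves the transversal -/
def Ex (F : Set (Set V)) (R : Set V) (x : V) (K : Set V) : Prop :=
  K ∈ F ∧ x ∈ K ∧ (∀ r ∈ R, r ∉ K) ∧ ∃ r ∈ R, ∃ y, Bd F K r y

include hF in
theorem Ex.unique {v0 : V} (hv0 : v0 ∈ R) {x : V} {K K' : Set V} (h : Ex F R x K)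
    (h' : Ex F R x K') : K = K' := by
  obtain ⟨hK, h1, h2, r, hr, y, hb⟩ := h
  obtain ⟨hK', h1', h2', r', hr', y', hb'⟩ := h'
  by_cases hy : y ∈ K'
  · exact (hb.2.2 K' hK' (h2' r hr) hy).symm
  · by_cases hy' : y' ∈ K
    · exact hb'.2.2 K hK (h2 r' hr') hy'
    · exact (hF.nested K hK K' hK' x y y' v0 h1 h1' hb.2.1 hy hy' hb'.2.1 (h2 _ hv0)
        (h2' _ hv0)).elim

/-- the index set -/
abbrev Ix (F : Set (Set V)) (N : Subgroup G) (R : Set V) : Type := R ⊕ Quotient (edg F N)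

/-- the factors -/
def fac (hF : Nst G F) {N : Subgroup G} {R : Set V} (ch : ∀ q : Quotient (edg F N), Ch F N R q) :
    Ix F N R → Subgroup G
  | Sum.inl r => st hF N r
  | Sum.inr q => Subgroup.zpowers (ch q).n

/-- the ping-pong sets -/
def Xs (hF : Nst G F) {N : Subgroup G} {R : Set V} (ch : ∀ q : Quotient (edg F N), Ch F N R q) :
    Ix F N R → Set V
  | Sum.inl r => {x | ∃ m ∈ st hF N (r : V), m ≠ 1 ∧ ∃ B, Basic ch r B ∧ Ex F R x (m • B)}
  | Sum.inr q => {x | Ex F R x (ch q).H ∨ Ex F R x ((ch q).n⁻¹ • (ch q).Hᶜ)}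

include hfree hT in
theorem pp1 {r : V} (hr : r ∈ R) {a : G} (ha : a ∈ st hF N r) (ha1 : a ≠ 1) {x : V}
    (hx : ¬ Sim F r x) (hxX : x ∉ Xs hF ch (Sum.inl ⟨r, hr⟩)) :
    a • x ∈ Xs hF ch (Sum.inl ⟨r, hr⟩) := by
  obtain ⟨H, hH, hxH, y, hb⟩ := first hF hx
  obtain ⟨m, hm, B, hB, rfl⟩ := dart hF N hT ch hH hr hb
  by_cases hm1 : m = 1
  · subst hm1
    rw [one_smul] at hxH
    refine ⟨a, ha, ha1, B, hB, hF.inv a B (hB.mem hF N ch), mem_smul.2 hxH, fun s hs => ?_, r, hr, ?_⟩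
    · exact key hF N hfree hT ch hr ha ha1 hB hs
    · obtain ⟨z, hz⟩ := hB.bd hF N ch
      exact ⟨_, (hz.smul hF a).congr (hF.inv a B (hB.mem hF N ch)) ha.2 (Sim.refl _)⟩
  · exfalso
    apply hxX
    exact ⟨m, hm, hm1, B, hB, hH, hxH, fun s hs => key hF N hfree hT ch hr hm hm1 hB hs, r, hr,
      y, hb⟩

include hF hT in
/-- the half-spaces of a class without edges in the transversal -/
theorem ex_of_alt {q : Quotient (edg F N)} (hn : (ch q).n ≠ 1) {x : V} :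
    (x ∈ (ch q).H → Ex F R x (ch q).H) ∧
      (x ∈ (ch q).n⁻¹ • (ch q).Hᶜ → Ex F R x ((ch q).n⁻¹ • (ch q).Hᶜ)) := by
  have halt := (ch q).alt.resolve_left hn
  have h1 : Basic ch (ch q).r (ch q).H := ⟨q, Or.inl ⟨rfl, rfl⟩⟩
  have h2 : Basic ch (ch q).r' ((ch q).n⁻¹ • (ch q).Hᶜ) := ⟨q, Or.inr ⟨rfl, rfl⟩⟩
  have h2F := h2.mem hF N ch
  constructor
  · intro hx
    refine ⟨(ch q).hH, hx, fun s hs hsH => ?_, _, (ch q).hr, h1.bd hF N ch⟩
    obtain ⟨a, ha, b, hb, hab⟩ := hT.con _ (ch q).hH _ (ch q).hr s hs (ch q).bd.1 hsH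
    exact halt _ (ch q).hH (ch q).eq a ha b hb hab
  · intro hx
    refine ⟨h2F, hx, fun s hs hsH => ?_, _, (ch q).hr', h2.bd hF N ch⟩
    obtain ⟨y, hy⟩ := h2.bd hF N ch
    obtain ⟨a, ha, b, hb, hab⟩ := hT.con _ h2F _ (ch q).hr' s hs hy.1 hsH
    refine halt _ h2F ?_ a ha b hb hab
    refine Eq.trans ?_ (ch q).eq
    apply Quotient.sound
    refine ⟨(ch q).n, (ch q).hn, Or.inr ?_⟩
    show (ch q).H = (ch q).n • ((ch q).n⁻¹ • (ch q).Hᶜ)ᶜ
    rw [smul_cpl, smul_inv_smul, compl_compl]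

include hT hinv hv0 in
theorem pp2 {q : Quotient (edg F N)} (hn : (ch q).n ≠ 1) {x : V}
    (hx : x ∉ Xs hF ch (Sum.inr q)) {a : G} (ha : a ∈ Subgroup.zpowers (ch q).n) (ha1 : a ≠ 1) :
    a • x ∈ Xs hF ch (Sum.inr q) := by
  have hex := fun x => ex_of_alt hF N hT ch hn (x := x)
  obtain ⟨t, ht⟩ : ∃ t, t = (ch q).n := ⟨_, rfl⟩
  obtain ⟨H, hH⟩ : ∃ H, H = (ch q).H := ⟨_, rfl⟩
  have htN : t ∈ N := ht ▸ (ch q).hn
  have hHF : H ∈ F := hH ▸ (ch q).hH
  rw [← ht, ← hH] at hex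
  have hXs : ∀ y, y ∈ Xs hF ch (Sum.inr q) ↔ y ∈ H ∨ y ∈ t⁻¹ • Hᶜ := by
    intro y
    show (Ex F R y (ch q).H ∨ Ex F R y ((ch q).n⁻¹ • (ch q).Hᶜ)) ↔ _
    rw [← ht, ← hH]
    exact ⟨fun h => h.imp (fun h => h.2.1) (fun h => h.2.1),
      fun h => h.imp (hex y).1 (hex y).2⟩
  have hdisj : ∀ y, y ∈ H → y ∉ t⁻¹ • Hᶜ := by
    intro y h1 h2
    have h3 := Ex.unique hF hv0 ((hex y).1 h1) ((hex y).2 h2)
    apply hinv H hHF t htN
    rw [h3, smul_inv_smul, ← h3]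
  rw [hXs] at hx ⊢
  push Not at hx
  have hstep : ∀ y, y ∉ t⁻¹ • Hᶜ → t • y ∈ H := by
    intro y hy
    by_contra h1
    apply hy
    rw [mem_smul', inv_inv]
    exact h1
  have hstep' : ∀ y, y ∉ H → t⁻¹ • y ∈ t⁻¹ • Hᶜ := by
    intro y hy
    rw [mem_smul]
    exact hy
  have hpow : ∀ k : ℕ, t ^ (k + 1) • x ∈ H := by
    intro k
    induction k with
    | zero => rw [zero_add, pow_one]; exact hstep x hx.2
    | succ k ih =>
      rw [pow_succ', mul_smul]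
      exact hstep _ (hdisj _ ih)
  have hpow' : ∀ k : ℕ, (t⁻¹) ^ (k + 1) • x ∈ t⁻¹ • Hᶜ := by
    intro k
    induction k with
    | zero => rw [zero_add, pow_one]; exact hstep' x hx.1
    | succ k ih =>
      rw [pow_succ', mul_smul]
      exact hstep' _ (fun h => hdisj _ h ih)
  rw [← ht] at ha
  obtain ⟨z, rfl⟩ := Subgroup.mem_zpowers_iff.1 ha
  rcases lt_trichotomy z 0 with hz | hz | hz
  · right
    obtain ⟨k, hk⟩ : ∃ k : ℕ, z = -((k + 1 : ℕ) : ℤ) := ⟨(-z - 1).toNat, by omega⟩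
    rw [hk, zpow_neg, zpow_natCast, ← inv_pow]
    exact hpow' k
  · subst hz
    exact absurd (zpow_zero t) ha1
  · left
    obtain ⟨k, hk⟩ : ∃ k : ℕ, z = ((k + 1 : ℕ) : ℤ) := ⟨(z - 1).toNat, by omega⟩
    rw [hk, zpow_natCast]
    exact hpow k

include hfree hinv hv0 hT in
theorem Xs_disj {i j : Ix F N R} (hij : i ≠ j) {x : V} (hi : x ∈ Xs hF ch i)
    (hj : x ∈ Xs hF ch j) : False := by
  have hmix : ∀ (r : R) (q : Quotient (edg F N)), x ∈ Xs hF ch (Sum.inl r) →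
      x ∈ Xs hF ch (Sum.inr q) → False := by
    rintro r q ⟨m, hm, hm1, B, hB, hE⟩ (h | h)
    · have h1 := Ex.unique hF hv0 hE h
      exact hm1 (basic_eq hF N hfree hinv ch hB ⟨q, Or.inl ⟨rfl, rfl⟩⟩ hm.1 h1.symm)
    · have h1 := Ex.unique hF hv0 hE h
      exact hm1 (basic_eq hF N hfree hinv ch hB ⟨q, Or.inr ⟨rfl, rfl⟩⟩ hm.1 h1.symm)
  have hor : ∀ (r : R), x ∈ Xs hF ch (Sum.inl r) → ∃ K, Ex F R x K ∧ ∃ y, Bd F K r y := by
    rintro r ⟨m, hm, hm1, B, hB, hE⟩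
    obtain ⟨y, hy⟩ := hB.bd hF N ch
    exact ⟨_, hE, _, (hy.smul hF m).congr hE.1 hm.2 (Sim.refl _)⟩
  have hcl : ∀ (q : Quotient (edg F N)), x ∈ Xs hF ch (Sum.inr q) → ∃ K, ∃ hK : K ∈ F,
      Ex F R x K ∧ (Quotient.mk (edg F N) ⟨K, hK⟩) = q := by
    rintro q (h | h)
    · exact ⟨_, (ch q).hH, h, (ch q).eq⟩
    · refine ⟨_, h.1, h, ?_⟩
      refine Eq.trans ?_ (ch q).eq
      apply Quotient.sound
      refine ⟨(ch q).n, (ch q).hn, Or.inr ?_⟩
      show (ch q).H = (ch q).n • ((ch q).n⁻¹ • (ch q).Hᶜ)ᶜ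
      rw [smul_cpl, smul_inv_smul, compl_compl]
  rcases i with r | q <;> rcases j with s | p
  · obtain ⟨K, hK, y, hy⟩ := hor r hi
    obtain ⟨K', hK', y', hy'⟩ := hor s hj
    have h1 := Ex.unique hF hv0 hK hK'
    subst h1
    have h2 := hy.unique hF hK.1 hy'
    apply hij
    have h3 := hT.one r r.2 s s.2 1 N.one_mem (by rwa [one_smul])
    rw [Subtype.ext h3]
  · exact hmix r p hi hj
  · exact hmix s q hj hi
  · obtain ⟨K, hKF, hK, hq⟩ := hcl q hi
    obtain ⟨K', hKF', hK', hp⟩ := hcl p hj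
    have h1 := Ex.unique hF hv0 hK hK'
    subst h1
    apply hij
    rw [← hq, ← hp]

include hfree hinv hv0 hT h0 in
theorem fac_inj : Function.Injective
    (Monoid.CoprodI.lift fun i : Ix F N R => (fac hF ch i).subtype) := by
  have hbase : ∀ i, v0 ∉ Xs hF ch i := by
    rintro (r | q)
    · rintro ⟨m, hm, hm1, B, hB, hE⟩
      exact hE.2.2.1 v0 hv0 hE.2.1
    · rintro (h | h)
      · exact h.2.2.1 v0 hv0 h.2.1
      · exact h.2.2.1 v0 hv0 h.2.1
  have hnsim : ∀ (i : Ix F N R) (x : V), x ∈ Xs hF ch i → ∀ r ∈ R, ¬ Sim F r x := by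
    have h1 : ∀ (x : V) (K : Set V), Ex F R x K → ∀ r ∈ R, ¬ Sim F r x := by
      intro x K hK r hr hs
      exact hK.2.2.1 r hr ((hs K hK.1).2 hK.2.1)
    rintro (r | q) x hx s hs
    · obtain ⟨m, hm, hm1, B, hB, hE⟩ := hx
      exact h1 x _ hE s hs
    · rcases hx with h | h
      · exact h1 x _ h s hs
      · exact h1 x _ h s hs
  refine lift_inj_of_base (fac hF ch) (Xs hF ch) v0 hbase ?_ ?_
  · rintro (r | q) a ha ha1
    · refine pp1 hF N hfree hT ch r.2 ha ha1 ?_ (hbase _)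
      intro hs
      have h1 := hT.one r r.2 v0 hv0 1 N.one_mem (by rwa [one_smul])
      apply ha1
      apply h0 a ha.1
      rw [← h1]
      exact ha.2
    · refine pp2 hF N hinv hT ch v0 hv0 ?_ (hbase _) ha ha1
      intro h1
      have ha' : a ∈ Subgroup.zpowers (ch q).n := ha
      rw [h1, Subgroup.zpowers_one_eq_bot, Subgroup.mem_bot] at ha'
      exact ha1 ha'
  · rintro (r | q) j hij a ha ha1 x hx
    · exact pp1 hF N hfree hT ch r.2 ha ha1 (hnsim j x hx r r.2)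
        (fun h => Xs_disj hF N hfree hinv hT ch v0 hv0 hij h hx)
    · refine pp2 hF N hinv hT ch v0 hv0 ?_
        (fun h => Xs_disj hF N hfree hinv hT ch v0 hv0 hij h hx) ha ha1
      intro h1
      have ha' : a ∈ Subgroup.zpowers (ch q).n := ha
      rw [h1, Subgroup.zpowers_one_eq_bot, Subgroup.mem_bot] at ha'
      exact ha1 ha'

include hT hv0 h0 in
theorem fac_sup : ⨆ i, fac hF ch i = N := by
  apply le_antisymm
  · refine iSup_le ?_
    rintro (r | q)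
    · exact fun n hn => hn.1
    · exact (Subgroup.zpowers_le).2 (ch q).hn
  · have hle : ∀ i, fac hF ch i ≤ ⨆ i, fac hF ch i := fun i => le_iSup (fac hF ch) i
    have hst : ∀ r ∈ R, st hF N r ≤ ⨆ i, fac hF ch i := fun r hr => hle (Sum.inl ⟨r, hr⟩)
    have hch : ∀ q, (ch q).n ∈ ⨆ i, fac hF ch i :=
      fun q => hle (Sum.inr q) (Subgroup.mem_zpowers _)
    have hall : ∀ v, ∃ γ ∈ ⨆ i, fac hF ch i, ∃ r ∈ R, Sim F (γ • r) v := by
      refine conn hF (P := fun v => ∃ γ ∈ ⨆ i, fac hF ch i, ∃ r ∈ R, Sim F (γ • r) v) (x := v0)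
        ⟨1, one_mem _, v0, hv0, by rw [one_smul]; exact Sim.refl _⟩ ?_ ?_
      · rintro y z hyz ⟨γ, hγ, r, hr, h⟩
        exact ⟨γ, hγ, r, hr, h.trans hyz⟩
      · rintro H hH y z hb ⟨γ, hγ, r, hr, h⟩
        have h1 : Bd F (γ⁻¹ • H) r (γ⁻¹ • z) := by
          refine (hb.smul hF γ⁻¹).congr (hF.inv _ _ hH) ?_ (Sim.refl _)
          have := (h.smul hF γ⁻¹).symm
          rwa [inv_smul_smul] at this
        obtain ⟨m, hm, B, hB, hmB⟩ := dart hF N hT ch (hF.inv _ _ hH) hr h1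
        have h2 : Bd F B r ((m⁻¹ * γ⁻¹) • z) := by
          have h3 := h1.smul hF m⁻¹
          rw [hmB, inv_smul_smul, smul_smul] at h3
          refine h3.congr (hB.mem hF N ch) ?_ (Sim.refl _)
          have := (hm.2.smul hF m⁻¹).symm
          rwa [inv_smul_smul] at this
        have h4 : ∃ δ ∈ ⨆ i, fac hF ch i, ∃ s ∈ R, Bd F B r (δ • s) := by
          obtain ⟨q, ⟨rfl, rfl⟩ | ⟨rfl, rfl⟩⟩ := hB
          · exact ⟨_, hch q, _, (ch q).hr', (ch q).bd⟩
          · have h5 := ((ch q).bd.cpl hF).smul hF (ch q).n⁻¹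
            rw [inv_smul_smul] at h5
            exact ⟨_, inv_mem (hch q), _, (ch q).hr, h5⟩
        obtain ⟨δ, hδ, s, hs, h5⟩ := h4
        have h6 := h5.unique' hF (hB.mem hF N ch) h2
        refine ⟨γ * m * δ, mul_mem (mul_mem hγ (hst r hr hm)) hδ, s, hs, ?_⟩
        have h7 := h6.smul hF (γ * m)
        have h8 : γ * m * (m⁻¹ * γ⁻¹) = 1 := by group
        rwa [smul_smul, smul_smul, h8, one_smul] at h7
    intro n hn
    obtain ⟨γ, hγ, r, hr, h⟩ := hall (n • v0)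
    have hγN : γ ∈ N := by
      have : ⨆ i, fac hF ch i ≤ N := by
        refine iSup_le ?_
        rintro (r | q)
        · exact fun n hn => hn.1
        · exact (Subgroup.zpowers_le).2 (ch q).hn
      exact this hγ
    have h1 : Sim F ((n⁻¹ * γ) • r) v0 := by
      have := h.smul hF n⁻¹
      rwa [inv_smul_smul, smul_smul] at this
    have h2 := hT.one r hr v0 hv0 _ (N.mul_mem (N.inv_mem hn) hγN) h1
    rw [h2] at h1
    have h3 := h0 _ (N.mul_mem (N.inv_mem hn) hγN) h1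
    have h4 : n = γ := by
      rw [inv_mul_eq_one] at h3
      exact h3
    rw [h4]
    exact hγ

end dec

theorem free_zpowers {G : Type} [Group G] {t : G} (h : ∀ k : ℕ, t ^ (k + 1) ≠ 1) :
    IsFreeGroup (Subgroup.zpowers t) := by
  let f : Multiplicative ℤ →* Subgroup.zpowers t :=
    (zpowersHom G t).codRestrict _ fun z => Subgroup.mem_zpowers_iff.2 ⟨z.toAdd, rfl⟩
  have hf : Function.Bijective f := by
    constructor
    · rw [injective_iff_map_eq_one]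
      intro z hz
      have h1 : t ^ z.toAdd = 1 := congrArg Subtype.val hz
      rcases lt_trichotomy z.toAdd 0 with h2 | h2 | h2
      · exfalso
        apply h (-z.toAdd - 1).toNat
        have h3 : (((-z.toAdd - 1).toNat + 1 : ℕ) : ℤ) = - z.toAdd := by omega
        rw [← zpow_natCast, h3, zpow_neg, h1, inv_one]
      · exact h2
      · exfalso
        apply h (z.toAdd - 1).toNat
        have h3 : (((z.toAdd - 1).toNat + 1 : ℕ) : ℤ) = z.toAdd := by omega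
        rw [← zpow_natCast, h3, h1]
    · rintro ⟨x, hx⟩
      obtain ⟨z, rfl⟩ := Subgroup.mem_zpowers_iff.1 hx
      exact ⟨Multiplicative.ofAdd z, rfl⟩
  exact IsFreeGroup.ofMulEquiv ((FreeGroup.mulEquivIntOfUnique (α := Unit)).trans
    (MulEquiv.ofBijective f hf))

/-- **the decomposition**: a group which acts on a tree with trivial stabilizers of the edges,
without inversions and with a vertex with trivial stabilizer, is the free product of the stabilizers of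
representatives of the vertices and of cyclic groups -/
theorem decomposition (hF : Nst G F) (N : Subgroup G)
    (hfree : ∀ H ∈ F, ∀ n ∈ N, n • H = H → n = 1) (hinv : ∀ H ∈ F, ∀ n ∈ N, n • H ≠ Hᶜ) (v0 : V)
    (h0 : ∀ n ∈ N, Sim F (n • v0) v0 → n = 1) :
    ∃ (I : Type) (A : I → Subgroup G) (S : Set I), IsFreeProd N A ∧
      (∀ i, i ∉ S → IsFreeGroup (A i)) ∧ (∀ i ∈ S, ∃ v, A i = st hF N v) ∧
      ∀ v, ∃ i ∈ S, ∃ n ∈ N, ∀ x, x ∈ st hF N v ↔ n * x * n⁻¹ ∈ A i := by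
  obtain ⟨R, hv0, hT, hfull⟩ := exists_tr hF N v0
  have hch := fun q => exists_ch hF N hfull q
  let ch : ∀ q : Quotient (edg F N), Ch F N R q := fun q => Classical.choice (hch q)
  refine ⟨Ix F N R, fac hF ch, Set.range Sum.inl, ⟨fac_sup hF N hT ch v0 hv0 h0,
    fac_inj hF N hfree hinv hT ch v0 hv0 h0⟩, ?_, ?_, ?_⟩
  · rintro (r | q) hi
    · exact absurd ⟨r, rfl⟩ hi
    · by_cases h1 : (ch q).n = 1
      · apply free_of_bot
        show Subgroup.zpowers (ch q).n = ⊥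
        rw [h1, Subgroup.zpowers_one_eq_bot]
      · apply free_zpowers
        intro k hk
        have hbase : v0 ∉ Xs hF ch (Sum.inr q) := by
          rintro (h | h)
          · exact h.2.2.1 v0 hv0 h.2.1
          · exact h.2.2.1 v0 hv0 h.2.1
        have hex := fun x => ex_of_alt hF N hT ch h1 (x := x)
        -- `t ^ (k+1)` moves `v0` into `H`
        have hnot : v0 ∉ (ch q).n⁻¹ • (ch q).Hᶜ := fun h => hbase (Or.inr ((hex v0).2 h))
        have hdisj : ∀ y, y ∈ (ch q).H → y ∉ (ch q).n⁻¹ • (ch q).Hᶜ := by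
          intro y h2 h3
          have h4 := Ex.unique hF hv0 ((hex y).1 h2) ((hex y).2 h3)
          apply hinv _ (ch q).hH _ (ch q).hn
          conv_lhs => rw [h4]
          rw [smul_inv_smul]
        have hstep : ∀ y, y ∉ (ch q).n⁻¹ • (ch q).Hᶜ → (ch q).n • y ∈ (ch q).H := by
          intro y hy
          by_contra h2
          apply hy
          rw [mem_smul', inv_inv]
          exact h2
        have hpow : ∀ k : ℕ, (ch q).n ^ (k + 1) • v0 ∈ (ch q).H := by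
          intro k
          induction k with
          | zero => rw [zero_add, pow_one]; exact hstep v0 hnot
          | succ k ih =>
            rw [pow_succ', mul_smul]
            exact hstep _ (hdisj _ ih)
        have h2 := hpow k
        rw [hk, one_smul] at h2
        exact hbase (Or.inl ((hex v0).1 h2))
  · rintro _ ⟨r, rfl⟩
    exact ⟨r, rfl⟩
  · intro v
    obtain ⟨n, hn, r, hr, h⟩ := hfull v
    refine ⟨Sum.inl ⟨r, hr⟩, ⟨_, rfl⟩, n, hn, fun x => ?_⟩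
    show x ∈ N ∧ Sim F (x • v) v ↔ n * x * n⁻¹ ∈ N ∧ Sim F ((n * x * n⁻¹) • r) r
    constructor
    · rintro ⟨hx, hxv⟩
      refine ⟨N.mul_mem (N.mul_mem hn hx) (N.inv_mem hn), ?_⟩
      have h1 : Sim F (n⁻¹ • r) v := by
        have := (h.smul hF n⁻¹).symm
        rwa [inv_smul_smul] at this
      have h2 := ((h1.smul hF x).trans hxv).smul hF n
      rw [smul_smul, smul_smul, ] at h2
      exact h2.trans h
    · rintro ⟨hx, hxv⟩
      have hx' : x ∈ N := by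
        have := N.mul_mem (N.mul_mem (N.inv_mem hn) hx) hn
        have h2 : n⁻¹ * (n * x * n⁻¹) * n = x := by group
        rwa [h2] at this
      refine ⟨hx', ?_⟩
      have h2 := (h.smul hF (n * x * n⁻¹)).trans (hxv.trans h.symm)
      have h3 := h2.smul hF n⁻¹
      rw [smul_smul, smul_smul, inv_smul_smul] at h3
      have h4 : n⁻¹ * (n * x * n⁻¹) * n = x := by group
      rwa [h4] at h3

end Pool.Agent.K7.H87.FJ3
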