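import Pool.Agent.K7.H87.FJ3.OP2

/-!
# `GL₂` over rings with one place at infinity: variants
-/

set_option autoImplicit false

namespace Pool.Agent.K7.H87.FJ3

open Matrix WithZero Pool.Agent.R684.FP Pool.Agent.Y110.FJ
open Pool.Agent.K7.H87.FJ2 (gl_map_injective mem_ker_map mem_ker_mk nil_solv ext_solv)

variable {C : ∀ (G : Type) [Group G], Prop}

/-- rings with a homomorphism to the field -/
theorem one_place' (hC : ClosedE C) (hFb : FbC C)
    (hS : ∀ (S : Type) [Group S], Group.IsSolvable S → C S)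
    {K : Type} [Field K] (v : Valuation K ℤᵐ⁰) (hv : Function.Surjective v)
    {A : Type} [CommRing A] (ι : A →+* K) (hι : Function.Injective ι)
    (hA : ∀ a, a ≠ 0 → 1 ≤ v (ι a)) {R : Type} [CommRing R] (φ : A →+* R)
    (hφ : ∀ a, v (ι a) ≤ 1 → φ a = 0 → a = 0) {G H : Type} [Group G] [Group H]
    (α : G →* GL (Fin 2) A) (β : G →* H) (hαβ : ∀ g, α g = 1 → β g = 1 → g = 1)
    (hker : ∀ g, β g = 1 → GeneralLinearGroup.map φ (α g) = 1) (hH : C H) : C G := by
  obtain ⟨π, hπ⟩ := hv (exp (-1))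
  have he : Function.Bijective ι.rangeRestrict :=
    ⟨fun a b hab => hι (congrArg Subtype.val hab), ι.rangeRestrict_surjective⟩
  let e : A ≃+* ι.range := RingEquiv.ofBijective ι.rangeRestrict he
  have hes : ∀ a, ((e a : ι.range) : K) = ι a := fun a => rfl
  have hcomp : (φ.comp e.symm.toRingHom).comp e.toRingHom = φ := by
    ext a
    simp
  refine one_place hC hFb hS v hπ ι.range ?_ (φ.comp e.symm.toRingHom) ?_
    ((GeneralLinearGroup.map e.toRingHom).comp α) β ?_ ?_ hH
  · rintro _ ⟨a, rfl⟩ h0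
    exact hA a (fun h => h0 (by rw [h, map_zero]))
  · intro a ha h
    obtain ⟨b, rfl⟩ := e.surjective a
    have h1 : φ b = 0 := by simpa using h
    rw [hφ b ha h1, map_zero]
  · intro g hg hb
    refine hαβ g ?_ hb
    apply gl_map_injective (φ := e.toRingHom) e.injective
    rw [map_one]
    exact hg
  · intro g hg
    rw [← hker g hg]
    conv_rhs => rw [← hcomp]
    rfl

theorem one_place_gl (hC : ClosedE C) (hFb : FbC C)
    (hS : ∀ (S : Type) [Group S], Group.IsSolvable S → C S)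
    {K : Type} [Field K] (v : Valuation K ℤᵐ⁰) (hv : Function.Surjective v)
    {A : Type} [CommRing A] (ι : A →+* K) (hι : Function.Injective ι)
    (hA : ∀ a, a ≠ 0 → 1 ≤ v (ι a)) {R : Type} [CommRing R] (φ : A →+* R)
    (hφ : ∀ a, v (ι a) ≤ 1 → φ a = 0 → a = 0) (h : C (GL (Fin 2) R)) : C (GL (Fin 2) A) :=
  one_place' hC hFb hS v hv ι hι hA φ hφ (MonoidHom.id _) (GeneralLinearGroup.map φ)
    (fun _ h _ => h) (fun _ h => h) h

/-- noetherian rings -/
theorem gl_noeth (hC : ClosedE C) (hS : ∀ (S : Type) [Group S], Group.IsSolvable S → C S)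
    {A : Type} [CommRing A] [IsNoetherianRing A]
    (h : ∀ p ∈ minimalPrimes A, C (GL (Fin 2) (A ⧸ p))) : C (GL (Fin 2) A) := by
  have hfin : Finite (minimalPrimes A) := (minimalPrimes.finite_of_isNoetherianRing A).to_subtype
  let Φ : GL (Fin 2) A →* (∀ p : minimalPrimes A, GL (Fin 2) (A ⧸ p.1)) :=
    MonoidHom.pi fun p => GeneralLinearGroup.map (Ideal.Quotient.mk p.1)
  have h1 := Pool.Agent.R615.SC.pi_finite hC.base (minimalPrimes A)
    (fun p => GL (Fin 2) (A ⧸ p.1)) fun p => h p.1 p.2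
  have h2 : C (GL (Fin 2) A ⧸ Φ.ker) :=
    hC.base.of_injective _ _ (QuotientGroup.kerLift Φ) (QuotientGroup.kerLift_injective Φ) h1
  refine ext_solv hC hS Φ.ker ?_ h2
  obtain ⟨n, hn⟩ := IsNoetherianRing.isNilpotent_nilradical A
  have hs := nil_solv n A (nilradical A) hn
  have hmem : ∀ p : Φ.ker, (p : GL (Fin 2) A) ∈
      (GeneralLinearGroup.map (n := Fin 2) (Ideal.Quotient.mk (nilradical A))).ker := by
    intro p
    rw [mem_ker_mk]
    intro i j
    have h3 : nilradical A = sInf (minimalPrimes A) :=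
      (Ideal.sInf_minimalPrimes (I := (⊥ : Ideal A))).symm
    rw [h3, Submodule.mem_sInf]
    intro q hq
    have h4 : GeneralLinearGroup.map (Ideal.Quotient.mk q) p.1 = 1 := congrFun p.2 ⟨q, hq⟩
    exact (mem_ker_mk q p.1).1 h4 i j
  refine Group.isSolvable_of_isSolvable_injective (G' :=
    (GeneralLinearGroup.map (n := Fin 2) (Ideal.Quotient.mk (nilradical A))).ker)
    (f := (Φ.ker.subtype).codRestrict _ hmem) ?_
  intro p q hpq
  have h5 : p.1 = q.1 := congrArg (fun r : ↥(GeneralLinearGroup.map (n := Fin 2)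
    (Ideal.Quotient.mk (nilradical A))).ker => (r : GL (Fin 2) A)) hpq
  exact Subtype.ext h5

end Pool.Agent.K7.H87.FJ3
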