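import Pool.Agent.K7.H87.FJ3.Cls

/-!
# Adding free leaves, and the closure theorem without a base vertex
-/

set_option autoImplicit false

namespace Pool.Agent.K7.H87.FJ3

open Pointwise Pool.Agent.R684.FP Pool.Agent.Y110.FJ
open Pool.Agent.R941.FJ (C_cyc C_le)

variable {G V : Type} [Group G] [MulAction G V] {F : Set (Set V)}

/-- the retraction of the tree with leaves -/
def rt (v0 : V) : V ⊕ G → V
  | Sum.inl v => v
  | Sum.inr g => g • v0

theorem rt_smul (v0 : V) (g : G) (p : V ⊕ G) : rt v0 (g • p) = g • rt v0 p := by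
  rcases p with v | h
  · rfl
  · show (g * h) • v0 = g • h • v0
    rw [mul_smul]

/-- the half-spaces of the tree with leaves -/
def FL (F : Set (Set V)) (v0 : V) : Set (Set (V ⊕ G)) :=
  {H | (∃ K ∈ F, H = rt (G := G) v0 ⁻¹' K) ∨ ∃ g : G, H = {Sum.inr g} ∨ H = {Sum.inr g}ᶜ}

theorem smul_pre (v0 : V) (g : G) (K : Set V) :
    g • (rt (G := G) v0 ⁻¹' K) = rt (G := G) v0 ⁻¹' (g • K) := by
  ext p
  rw [mem_smul', Set.mem_preimage, Set.mem_preimage, mem_smul', rt_smul]

theorem smul_leaf (g h : G) : g • ({Sum.inr h} : Set (V ⊕ G)) = {Sum.inr (g * h)} := by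
  rw [Set.smul_set_singleton]
  rfl

theorem nst_FL (hF : Nst G F) (v0 : V) : Nst G (FL (G := G) F v0) where
  inv := by
    rintro g _ (⟨K, hK, rfl⟩ | ⟨h, rfl | rfl⟩)
    · exact Or.inl ⟨g • K, hF.inv g K hK, smul_pre v0 g K⟩
    · exact Or.inr ⟨g * h, Or.inl (smul_leaf g h)⟩
    · exact Or.inr ⟨g * h, Or.inr (by rw [smul_cpl, smul_leaf])⟩
  cpl := by
    rintro _ (⟨K, hK, rfl⟩ | ⟨h, rfl | rfl⟩)
    · exact Or.inl ⟨Kᶜ, hF.cpl K hK, rfl⟩
    · exact Or.inr ⟨h, Or.inr rfl⟩
    · exact Or.inr ⟨h, Or.inl (compl_compl _)⟩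
  nested := by
    rintro _ (⟨K, hK, rfl⟩ | ⟨h, rfl | rfl⟩) L hL a b c d h1 h2 h3 h4 h5 h6 h7 h8
    · rcases hL with ⟨M, hM, rfl⟩ | ⟨k, rfl | rfl⟩
      · exact hF.nested K hK M hM _ _ _ _ h1 h2 h3 h4 h5 h6 h7 h8
      · have e1 : a = c := by rw [h2, h6]
        rw [e1] at h1
        exact h5 h1
      · have e1 : b = d := by
          rw [Set.mem_compl_iff, not_not] at h4 h8
          rw [h4, h8]
        rw [e1] at h3
        exact h7 h3
    · have e1 : a = b := by rw [h1, h3]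
      rw [e1] at h2
      exact h4 h2
    · have e1 : c = d := by
        rw [Set.mem_compl_iff, not_not] at h5 h7
        rw [h5, h7]
      rw [e1] at h6
      exact h8 h6
  fin := by
    intro x y
    refine ((((hF.fin (rt v0 x) (rt v0 y)).image (fun K => rt (G := G) v0 ⁻¹' K)).union
      (Set.finite_singleton ({y} : Set (V ⊕ G)))).union
      (Set.finite_singleton (({x} : Set (V ⊕ G))ᶜ))).subset ?_
    rintro _ ⟨⟨K, hK, rfl⟩ | ⟨h, rfl | rfl⟩, h1, h2⟩
    · exact Or.inl (Or.inl ⟨K, ⟨hK, h1, h2⟩, rfl⟩)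
    · refine Or.inl (Or.inr ?_)
      rw [Set.mem_singleton_iff] at h2 ⊢
      rw [h2]
    · refine Or.inr ?_
      rw [Set.mem_compl_iff, not_not, Set.mem_singleton_iff] at h1
      rw [Set.mem_singleton_iff, h1]
  ends := by
    rintro _ (⟨K, hK, rfl⟩ | ⟨h, rfl | rfl⟩)
    · obtain ⟨x, y, hb⟩ := hF.ends K hK
      refine ⟨Sum.inl x, Sum.inl y, hb.1, hb.2.1, ?_⟩
      rintro _ (⟨L, hL, rfl⟩ | ⟨k, rfl | rfl⟩) h1 h2
      · rw [hb.2.2 L hL h1 h2]
      · exact absurd h2 (by simp)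
      · exact absurd h1 (by simp)
    · refine ⟨Sum.inl (h • v0), Sum.inr h, by simp, by simp, ?_⟩
      rintro _ (⟨L, hL, rfl⟩ | ⟨k, rfl | rfl⟩) h1 h2
      · exact absurd h2 h1
      · rw [Set.mem_singleton_iff, Sum.inr.injEq] at h2
        rw [h2]
      · exact absurd h1 (by simp)
    · refine ⟨Sum.inr h, Sum.inl (h • v0), by simp, by simp, ?_⟩
      rintro _ (⟨L, hL, rfl⟩ | ⟨k, rfl | rfl⟩) h1 h2
      · exact absurd h2 h1
      · exact absurd h2 (by simp)
      · rw [Set.mem_compl_iff, not_not, Set.mem_singleton_iff, Sum.inr.injEq] at h1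
        rw [h1]

theorem sim_inl {v0 x y : V} : Sim (FL (G := G) F v0) (Sum.inl x) (Sum.inl y) ↔ Sim F x y := by
  constructor
  · intro h K hK
    exact h _ (Or.inl ⟨K, hK, rfl⟩)
  · rintro h _ (⟨K, hK, rfl⟩ | ⟨k, rfl | rfl⟩)
    · exact h K hK
    · simp
    · simp

theorem sim_inr {v0 : V} {g h : G}
    (hs : Sim (FL (G := G) F v0) (Sum.inr g : V ⊕ G) (Sum.inr h : V ⊕ G)) : g = h := by
  have h1 := (hs {Sum.inr g} (Or.inr ⟨g, Or.inl rfl⟩)).1 rfl
  rw [Set.mem_singleton_iff, Sum.inr.injEq] at h1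
  exact h1.symm

/-- an element which fixes two classes fixes a half-space -/
theorem fix_two (hF : Nst G F) {n : G} {x y : V} (hx : Sim F (n • x) x) (hy : Sim F (n • y) y)
    (hxy : ¬ Sim F x y) : ∃ H ∈ F, n • H = H := by
  obtain ⟨H, hH, hyH, z, hb⟩ := first hF hxy
  have hnH := hF.inv n H hH
  have hb' : Bd F (n • H) x (n • z) := (hb.smul hF n).congr hnH hx (Sim.refl _)
  refine ⟨H, hH, ?_⟩
  by_cases h1 : z ∈ n • H
  · exact hb.2.2 _ hnH hb'.1 h1
  · by_cases h2 : n • z ∈ H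
    · exact (hb'.2.2 H hH hb.1 h2).symm
    · exfalso
      refine hF.nested H hH (n • H) hnH y z (n • z) x hyH ?_ hb.2.1 h1 h2 hb'.2.1 hb.1 hb'.1
      exact (hy _ hnH).1 (mem_smul.2 hyH)

/-- the stabilizer of the class of a vertex -/
def cst (hF : Nst G F) (v : V) : Subgroup G where
  carrier := {n | Sim F (n • v) v}
  one_mem' := by
    show Sim F ((1 : G) • v) v
    rw [one_smul]; exact Sim.refl _
  mul_mem' := by
    rintro a b ha hb
    show Sim F ((a * b) • v) v
    rw [mul_smul]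
    exact (Sim.smul hF a hb).trans ha
  inv_mem' := by
    rintro a ha
    have := (Sim.smul hF a⁻¹ ha).symm
    rwa [inv_smul_smul] at this

variable {C : ∀ (G : Type) [Group G], Prop}

/-- **the closure theorem** without a base vertex -/
theorem nested_closed' (hC : ClosedE C) (hFb : FbC C) (hF : Nst G F) (N : Subgroup G) [N.Normal]
    (hfree : ∀ H ∈ F, ∀ n ∈ N, n • H = H → n = 1) (hinv : ∀ H ∈ F, ∀ n ∈ N, n • H ≠ Hᶜ) (v0 : V)
    (hQ : C (G ⧸ N)) (hst : ∀ v : V, C ↥(cst hF v)) : C G := by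
  have hL := nst_FL hF v0
  refine nested_closed hC hFb hL N ?_ ?_ (Sum.inr 1) ?_ hQ ?_
  · rintro _ (⟨K, hK, rfl⟩ | ⟨h, rfl | rfl⟩) n hn h1
    · refine hfree K hK n hn ?_
      rw [smul_pre] at h1
      ext v
      have := congrArg (fun S : Set (V ⊕ G) => (Sum.inl v : V ⊕ G) ∈ S) h1
      exact this.to_iff
    · rw [smul_leaf, Set.singleton_eq_singleton_iff, Sum.inr.injEq] at h1
      exact mul_eq_right.1 h1
    · rw [smul_cpl, smul_leaf, compl_inj_iff, Set.singleton_eq_singleton_iff, Sum.inr.injEq] at h1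
      exact mul_eq_right.1 h1
  · rintro _ (⟨K, hK, rfl⟩ | ⟨h, rfl | rfl⟩) n hn h1
    · refine hinv K hK n hn ?_
      rw [smul_pre] at h1
      ext v
      have := congrArg (fun S : Set (V ⊕ G) => (Sum.inl v : V ⊕ G) ∈ S) h1
      exact this.to_iff
    · rw [smul_leaf] at h1
      have h2 : (Sum.inl v0 : V ⊕ G) ∈ ({Sum.inr h} : Set (V ⊕ G))ᶜ := by simp
      rw [← h1] at h2
      exact absurd h2 (by simp)
    · rw [smul_cpl, smul_leaf, compl_compl] at h1
      have h2 : (Sum.inl v0 : V ⊕ G) ∈ ({Sum.inr (n * h)} : Set (V ⊕ G))ᶜ := by simp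
      rw [h1] at h2
      exact absurd h2 (by simp)
  · intro n hn hs
    have h1 : (Sum.inr (n * 1) : V ⊕ G) = n • (Sum.inr 1 : V ⊕ G) := rfl
    rw [← h1] at hs
    have := sim_inr hs
    rwa [mul_one] at this
  · intro p g hg
    by_cases hbot : st hL N p = ⊥
    · rw [hbot, bot_sup_eq]
      exact C_cyc hC.base g
    · obtain ⟨⟨n, hn⟩, hn1⟩ := Subgroup.ne_bot_iff_exists_ne_one.1 hbot
      have hn1' : n ≠ 1 := fun h => hn1 (Subtype.ext h)
      rcases p with v | h
      · have hsub : st hL N (Sum.inl v) ⊔ Subgroup.zpowers g ≤ cst hF v := by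
          rw [sup_le_iff]
          constructor
          · intro m hm
            exact sim_inl.1 hm.2
          · rw [Subgroup.zpowers_le]
            show Sim F (g • v) v
            by_contra hcon
            have h1 : g * (g⁻¹ * n * g) * g⁻¹ = n := by group
            have h2 : g⁻¹ * n * g ∈ st hL N (Sum.inl v) := by
              rw [hg, h1]; exact hn
            have h3 : Sim F (n • v) v := sim_inl.1 hn.2
            have h4 : Sim F (n • g • v) (g • v) := by
              have h5 : Sim F ((g⁻¹ * n * g) • v) v := sim_inl.1 h2.2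
              have h6 := h5.smul hF g
              rwa [smul_smul, ← mul_assoc, mul_inv_cancel_left, mul_smul] at h6
            obtain ⟨H, hH, hnH⟩ := fix_two hF h3 h4 (fun h => hcon h.symm)
            exact hn1' (hfree H hH n hn.1 hnH)
        exact C_le hC.base hsub (hst v)
      · exfalso
        apply hn1'
        have h1 : Sim (FL (G := G) F v0) (Sum.inr (n * h) : V ⊕ G) (Sum.inr h : V ⊕ G) := hn.2
        exact mul_eq_right.1 (sim_inr h1)

end Pool.Agent.K7.H87.FJ3
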