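import Mathlib

/-!
# Nested families of half-spaces

`G` acts on a set `V`; a family of subsets of `V` which is invariant, nested and discrete is the family
of the half-trees of a tree.
-/

set_option autoImplicit false

namespace Pool.Agent.K7.H87.FJ3

open Pointwise

variable {G V : Type} [Group G] [MulAction G V]

/-- `x` and `y` are the ends of the edge which is bounded by the half-space `H` -/
def Bd (F : Set (Set V)) (H : Set V) (x y : V) : Prop :=
  x ∉ H ∧ y ∈ H ∧ ∀ K ∈ F, x ∉ K → y ∈ K → K = H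

/-- the points are not separated -/
def Sim (F : Set (Set V)) (x y : V) : Prop := ∀ H ∈ F, x ∈ H ↔ y ∈ H

/-- an invariant, nested, discrete family of half-spaces -/
structure Nst (G : Type) {V : Type} [Group G] [MulAction G V] (F : Set (Set V)) : Prop where
  inv : ∀ (g : G), ∀ H ∈ F, g • H ∈ F
  cpl : ∀ H ∈ F, Hᶜ ∈ F
  nested : ∀ H ∈ F, ∀ K ∈ F, ∀ a b c d : V, a ∈ H → a ∈ K → b ∈ H → b ∉ K → c ∉ H → c ∈ K →
    d ∉ H → d ∉ K → False
  fin : ∀ x y, {H | H ∈ F ∧ x ∉ H ∧ y ∈ H}.Finite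
  ends : ∀ H ∈ F, ∃ x y, Bd F H x y

variable {F : Set (Set V)}

theorem Sim.refl (x : V) : Sim F x x := fun _ _ => Iff.rfl

theorem Sim.symm {x y : V} (h : Sim F x y) : Sim F y x := fun H hH => (h H hH).symm

theorem Sim.trans {x y z : V} (h : Sim F x y) (h' : Sim F y z) : Sim F x z :=
  fun H hH => (h H hH).trans (h' H hH)

theorem mem_smul {g : G} {H : Set V} {x : V} : g • x ∈ g • H ↔ x ∈ H :=
  Set.smul_mem_smul_set_iff

theorem mem_smul' {g : G} {H : Set V} {x : V} : x ∈ g • H ↔ g⁻¹ • x ∈ H :=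
  Set.mem_smul_set_iff_inv_smul_mem

theorem Sim.smul (hF : Nst G F) (g : G) {x y : V} (h : Sim F x y) : Sim F (g • x) (g • y) := by
  intro H hH
  have h1 := h (g⁻¹ • H) (hF.inv _ H hH)
  rwa [mem_smul', mem_smul', inv_inv] at h1

theorem Sim.smul_iff (hF : Nst G F) (g : G) {x y : V} : Sim F (g • x) (g • y) ↔ Sim F x y := by
  constructor
  · intro h
    have h1 := h.smul hF g⁻¹
    rwa [inv_smul_smul, inv_smul_smul] at h1
  · exact Sim.smul hF g

theorem Sim.smul_left (hF : Nst G F) (g : G) {x y : V} : Sim F (g • x) y ↔ Sim F x (g⁻¹ • y) := by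
  rw [← Sim.smul_iff hF g⁻¹, inv_smul_smul]

theorem Bd.congr {H : Set V} (hH : H ∈ F) {x y x' y' : V} (h : Bd F H x y) (hx : Sim F x x')
    (hy : Sim F y y') : Bd F H x' y' := by
  obtain ⟨h1, h2, h3⟩ := h
  refine ⟨fun h => h1 ((hx H hH).2 h), (hy H hH).1 h2, fun K hK k1 k2 => ?_⟩
  exact h3 K hK (fun h => k1 ((hx K hK).1 h)) ((hy K hK).2 k2)

theorem Bd.smul (hF : Nst G F) (g : G) {H : Set V} {x y : V} (h : Bd F H x y) :
    Bd F (g • H) (g • x) (g • y) := by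
  obtain ⟨h1, h2, h3⟩ := h
  refine ⟨fun h => h1 (mem_smul.1 h), mem_smul.2 h2, fun K hK k1 k2 => ?_⟩
  have h4 := h3 (g⁻¹ • K) (hF.inv _ K hK) (fun h => k1 (by rwa [mem_smul', inv_inv] at h))
    (by rwa [mem_smul', inv_inv])
  rw [← h4, smul_inv_smul]

theorem Bd.cpl (hF : Nst G F) {H : Set V} {x y : V} (h : Bd F H x y) : Bd F Hᶜ y x := by
  obtain ⟨h1, h2, h3⟩ := h
  refine ⟨fun h => h h2, h1, fun K hK k1 k2 => ?_⟩
  have h4 := h3 Kᶜ (hF.cpl K hK) (fun h => h k2) k1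
  rw [← h4, compl_compl]

/-- a half-space which separates the ends of the edge -/
theorem Bd.eq_or (hF : Nst G F) {H K : Set V} {x y : V} (h : Bd F H x y) (hK : K ∈ F) :
    K = H ∨ K = Hᶜ ∨ (x ∈ K ↔ y ∈ K) := by
  by_cases hx : x ∈ K <;> by_cases hy : y ∈ K
  · exact Or.inr (Or.inr ⟨fun _ => hy, fun _ => hx⟩)
  · right; left
    exact (h.cpl hF).2.2 K hK hy hx
  · left
    exact h.2.2 K hK hx hy
  · exact Or.inr (Or.inr ⟨fun h => absurd h hx, fun h => absurd h hy⟩)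

theorem Bd.unique (hF : Nst G F) {H : Set V} (hH : H ∈ F) {x y x' y' : V} (h : Bd F H x y)
    (h' : Bd F H x' y') : Sim F x x' := by
  have key : ∀ (K : Set V) (_ : K ∈ F) (x y x' y' : V) (_ : Bd F H x y) (_ : Bd F H x' y'),
      x ∉ K → x' ∈ K → False := by
    intro K hK x y x' y' h h' h1 h2
    rcases h.eq_or hF hK with h3 | h3 | h3
    · rw [h3] at h2
      exact h'.1 h2
    · rw [h3] at h1
      exact h1 h.1
    · rcases h'.eq_or hF hK with h4 | h4 | h4
      · rw [h4] at h2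
        exact h'.1 h2
      · rw [h4] at h1
        exact h1 h.1
      · exact hF.nested H hH K hK y' y x' x h'.2.1 (h4.1 h2) h.2.1 (fun h => h1 (h3.2 h))
          h'.1 h2 h.1 h1
  intro K hK
  constructor
  · intro h1
    by_contra h2
    exact key K hK x' y' x y h' h h2 h1
  · intro h1
    by_contra h2
    exact key K hK x y x' y' h h' h2 h1

theorem Bd.unique' (hF : Nst G F) {H : Set V} (hH : H ∈ F) {x y x' y' : V} (h : Bd F H x y)
    (h' : Bd F H x' y') : Sim F y y' :=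
  (h.cpl hF).unique hF (hF.cpl H hH) (h'.cpl hF)

/-- the number of the half-spaces which contain `y` and not `x` -/
noncomputable def sp (F : Set (Set V)) (x y : V) : ℕ := {H | H ∈ F ∧ x ∉ H ∧ y ∈ H}.ncard

theorem sp_lt (hF : Nst G F) {H : Set V} (hH : H ∈ F) {x y' y : V} (h : Bd F H x y')
    (hy : y ∈ H) : sp F y' y < sp F x y := by
  refine Set.ncard_lt_ncard ?_ (hF.fin x y)
  rw [Set.ssubset_iff_of_subset]
  · exact ⟨H, ⟨hH, h.1, hy⟩, fun h1 => h1.2.1 h.2.1⟩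
  · rintro K ⟨hK, k1, k2⟩
    refine ⟨hK, ?_, k2⟩
    rcases h.eq_or hF hK with h3 | h3 | h3
    · rw [h3]; exact h.1
    · rw [h3] at k2
      exact absurd hy k2
    · exact fun h4 => k1 (h3.1 h4)

/-- the first edge on the way from `x` to `y` -/
theorem first (hF : Nst G F) {x y : V} (hxy : ¬ Sim F x y) :
    ∃ H ∈ F, y ∈ H ∧ ∃ y', Bd F H x y' := by
  have hne : ∃ H, H ∈ F ∧ x ∉ H ∧ y ∈ H := by
    unfold Sim at hxy
    push Not at hxy
    obtain ⟨H, hH, h⟩ := hxy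
    rcases h with ⟨h1, h2⟩ | ⟨h1, h2⟩
    · exact ⟨Hᶜ, hF.cpl H hH, fun h => h h1, h2⟩
    · exact ⟨H, hH, h1, h2⟩
  obtain ⟨H, hHm⟩ := (hF.fin x y).exists_maximal hne
  obtain ⟨⟨hH, h1, h2⟩, hmax⟩ := hHm
  obtain ⟨x0, y0, hb⟩ := hF.ends H hH
  refine ⟨H, hH, h2, y0, ?_⟩
  refine hb.congr hH ?_ (Sim.refl _)
  -- `x` and `x0` are not separated
  have key : ∀ K ∈ F, x ∉ K → x0 ∈ K → False := by
    intro K hK k1 k2
    rcases hb.eq_or hF hK with h3 | h3 | h3
    · rw [h3] at k2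
      exact hb.1 k2
    · rw [h3] at k1
      exact k1 h1
    · have k3 : y0 ∈ K := h3.1 k2
      -- `H ⊆ K`
      have hHK : H ⊆ K := by
        intro z hz
        by_contra hzK
        exact hF.nested H hH K hK y0 z x0 x hb.2.1 k3 hz hzK hb.1 k2 h1 k1
      have h4 := hmax (y := K) ⟨hK, k1, hHK h2⟩ hHK
      exact hb.1 (h4 k2)
  intro K hK
  constructor
  · intro h3
    by_contra h4
    exact key K hK h4 h3
  · intro h3
    by_contra h4
    exact key Kᶜ (hF.cpl K hK) (fun h => h h3) h4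

/-- the induction principle: connectedness -/
theorem conn (hF : Nst G F) {P : V → Prop} {x : V} (hx : P x)
    (h1 : ∀ y z, Sim F y z → P y → P z) (h2 : ∀ H ∈ F, ∀ y z, Bd F H y z → P y → P z) (v : V) :
    P v := by
  obtain ⟨n, hn⟩ : ∃ n, n = sp F v x := ⟨_, rfl⟩
  induction n using Nat.strong_induction_on generalizing v with
  | _ n ih =>
    by_cases hs : Sim F v x
    · exact h1 x v hs.symm hx
    · obtain ⟨H, hH, hxH, y', hb⟩ := first hF hs
      have h3 := sp_lt hF hH hb hxH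
      have h4 := ih _ (by rw [hn]; exact h3) y' rfl
      exact h2 Hᶜ (hF.cpl H hH) y' v (hb.cpl hF) h4

/-- connected partial transversals for the classes of vertices modulo `N` -/
structure Tr (F : Set (Set V)) (N : Subgroup G) (R : Set V) : Prop where
  one : ∀ r ∈ R, ∀ r' ∈ R, ∀ n ∈ N, Sim F (n • r) r' → r = r'
  con : ∀ H ∈ F, ∀ r ∈ R, ∀ r' ∈ R, r ∉ H → r' ∈ H → ∃ a ∈ R, ∃ b ∈ R, Bd F H a b

theorem exists_tr (hF : Nst G F) (N : Subgroup G) (v0 : V) : ∃ R : Set V, v0 ∈ R ∧ Tr F N R ∧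
    ∀ v, ∃ n ∈ N, ∃ r ∈ R, Sim F (n • v) r := by
  obtain ⟨R, hR0, hR⟩ := zorn_subset_nonempty {R : Set V | v0 ∈ R ∧ Tr F N R} (by
    intro c hc hch hne
    obtain ⟨R1, hR1⟩ := hne
    have hdir : ∀ r ∈ ⋃₀ c, ∀ r' ∈ ⋃₀ c, ∃ R ∈ c, r ∈ R ∧ r' ∈ R := by
      rintro r ⟨A, hA, hrA⟩ r' ⟨B, hB, hrB⟩
      rcases hch.total hA hB with h | h
      · exact ⟨B, hB, h hrA, hrB⟩
      · exact ⟨A, hA, hrA, h hrB⟩
    refine ⟨⋃₀ c, ⟨⟨R1, hR1, (hc hR1).1⟩, ?_, ?_⟩, fun s hs => Set.subset_sUnion_of_mem hs⟩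
    · intro r hr r' hr' n hn h
      obtain ⟨R, hRc, h1, h2⟩ := hdir r hr r' hr'
      exact (hc hRc).2.one r h1 r' h2 n hn h
    · intro H hH r hr r' hr' h1 h2
      obtain ⟨R, hRc, k1, k2⟩ := hdir r hr r' hr'
      obtain ⟨a, ha, b, hb, hab⟩ := (hc hRc).2.con H hH r k1 r' k2 h1 h2
      exact ⟨a, ⟨R, hRc, ha⟩, b, ⟨R, hRc, hb⟩, hab⟩) {v0} (by
    refine ⟨rfl, ⟨?_, ?_⟩⟩
    · rintro r rfl r' rfl n hn h
      rfl
    · rintro H hH r rfl r' rfl h1 h2
      exact absurd h2 h1)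
  obtain ⟨⟨hv0, hT⟩, hmax⟩ := hR
  refine ⟨R, hv0, hT, ?_⟩
  refine conn hF (P := fun v => ∃ n ∈ N, ∃ r ∈ R, Sim F (n • v) r) (x := v0)
    ⟨1, N.one_mem, v0, hv0, by rw [one_smul]; exact Sim.refl _⟩ ?_ ?_
  · rintro y z hyz ⟨n, hn, r, hr, h⟩
    exact ⟨n, hn, r, hr, (hyz.symm.smul hF n).trans h⟩
  · rintro H hH y z hb ⟨n, hn, r, hr, h⟩
    by_contra hcon
    push Not at hcon
    -- the new vertex
    obtain ⟨w, hw⟩ : ∃ w, w = n • z := ⟨_, rfl⟩
    have hbw : Bd F (n • H) r w := by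
      rw [hw]
      exact (hb.smul hF n).congr (hF.inv n H hH) h (Sim.refl _)
    have hwn : ∀ m ∈ N, ∀ r' ∈ R, ¬ Sim F (m • w) r' := by
      intro m hm r' hr' h1
      rw [hw, smul_smul] at h1
      exact hcon _ (N.mul_mem hm hn) r' hr' h1
    have hmem : insert w R ∈ {R : Set V | v0 ∈ R ∧ Tr F N R} := by
      refine ⟨Or.inr hv0, ⟨?_, ?_⟩⟩
      · rintro a (rfl | ha) b (rfl | hb') m hm h1
        · rfl
        · exact absurd h1 (hwn m hm b hb')
        · exfalso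
          have h2 := (Sim.smul_left hF m).1 h1
          exact hwn m⁻¹ (N.inv_mem hm) a ha h2.symm
        · exact hT.one a ha b hb' m hm h1
      · -- separation of `w` from an element of `R`
        have key : ∀ K ∈ F, ∀ c ∈ R, ¬ (c ∈ K ↔ w ∈ K) → (∃ a ∈ R, ∃ b ∈ R, Bd F K a b) ∨
            (∃ a ∈ R, ∃ b ∈ R, Bd F Kᶜ a b) ∨ K = n • H ∨ K = (n • H)ᶜ := by
          intro K hK c hc h1
          rcases hbw.eq_or hF hK with h2 | h2 | h2
          · exact Or.inr (Or.inr (Or.inl h2))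
          · exact Or.inr (Or.inr (Or.inr h2))
          · by_cases hcK : c ∈ K
            · have h3 : r ∉ K := fun h4 => h1 ⟨fun _ => h2.1 h4, fun _ => hcK⟩
              left
              exact hT.con K hK r hr c hc h3 hcK
            · have h3 : r ∈ K := by
                by_contra h4
                exact h1 ⟨fun h5 => absurd h5 hcK, fun h5 => absurd (h2.2 h5) h4⟩
              left
              exact hT.con K hK c hc r hr hcK h3
        have key2 : ∀ K ∈ F, ∀ c ∈ R, ¬ (c ∈ K ↔ w ∈ K) →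
            ∃ a ∈ insert w R, ∃ b ∈ insert w R, Bd F K a b := by
          intro K hK c hc h1
          rcases key K hK c hc h1 with ⟨a, ha, b, hb', h2⟩ | ⟨a, ha, b, hb', h2⟩ | h2 | h2
          · exact ⟨a, Or.inr ha, b, Or.inr hb', h2⟩
          · refine ⟨b, Or.inr hb', a, Or.inr ha, ?_⟩
            have := h2.cpl hF
            rwa [compl_compl] at this
          · rw [h2]
            exact ⟨r, Or.inr hr, w, Or.inl rfl, hbw⟩
          · rw [h2]
            exact ⟨w, Or.inl rfl, r, Or.inr hr, hbw.cpl hF⟩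
        rintro K hK a (rfl | ha) b (rfl | hb') h1 h2
        · exact absurd h2 h1
        · exact key2 K hK b hb' (fun h3 => h1 (h3.1 h2))
        · exact key2 K hK a ha (fun h3 => h1 (h3.2 h2))
        · obtain ⟨c, hc, d, hd, h3⟩ := hT.con K hK a ha b hb' h1 h2
          exact ⟨c, Or.inr hc, d, Or.inr hd, h3⟩
    have h1 := hmax hmem (Set.subset_insert _ _)
    have h2 : w ∈ R := h1 (Set.mem_insert _ _)
    exact hwn 1 N.one_mem w h2 (by rw [one_smul]; exact Sim.refl _)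

end Pool.Agent.K7.H87.FJ3
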