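import Pool.Agent.K7.H87.FJ3.BT
import Pool.Agent.K7.H87.FJ2.Main

/-!
# `GL₂` over rings with one place at infinity
-/

set_option autoImplicit false
set_option linter.unusedSimpArgs false

namespace Pool.Agent.K7.H87.FJ3

open Matrix WithZero Pointwise Pool.Agent.R684.FP Pool.Agent.Y110.FJ
open Pool.Agent.K7.H87.FJ2 (T T_mul T_mulVec solv_sup)

section alg

variable {K : Type} [Field K]

/-- eigenvalues -/
theorem eig {X : Matrix (Fin 2) (Fin 2) K} {u : Fin 2 → K} (hu : u ≠ 0) {l : K}
    (h : X *ᵥ u = l • u) : l * l - X.trace * l + X.det = 0 := by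
  have h0 := congrFun h 0
  have h1 := congrFun h 1
  simp only [Matrix.mulVec, dotProduct, Fin.sum_univ_two, Pi.smul_apply, smul_eq_mul] at h0 h1
  rw [Matrix.trace_fin_two, Matrix.det_fin_two]
  obtain ⟨i, hi⟩ := Function.ne_iff.1 hu
  rw [Pi.zero_apply] at hi
  have key : (l * l - (X 0 0 + X 1 1) * l + (X 0 0 * X 1 1 - X 0 1 * X 1 0)) * u i = 0 := by
    fin_cases i
    · show _ * u 0 = 0
      linear_combination (X 1 1 - l) * h0 - X 0 1 * h1
    · show _ * u 1 = 0
      linear_combination (X 0 0 - l) * h1 - X 1 0 * h0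
  exact (mul_eq_zero.1 key).resolve_right hi

theorem fix_of_eig {X : Matrix (Fin 2) (Fin 2) K} (hd : X.det = 1) (ht : X.trace = 2)
    {u : Fin 2 → K} (hu : u ≠ 0) {l : K} (h : X *ᵥ u = l • u) : X *ᵥ u = u := by
  have h1 := eig hu h
  rw [hd, ht] at h1
  have h2 : (l - 1) * (l - 1) = 0 := by linear_combination h1
  have h3 : l = 1 := sub_eq_zero.1 (mul_self_eq_zero.1 h2)
  rw [h, h3, one_smul]

theorem form {X : Matrix (Fin 2) (Fin 2) K} (hd : X.det = 1) {u : Fin 2 → K} (hu : u ≠ 0)
    (h : X *ᵥ u = u) : ∃ f : K, X = T u f := by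
  have h0 := congrFun h 0
  have h1 := congrFun h 1
  simp only [Matrix.mulVec, dotProduct, Fin.sum_univ_two] at h0 h1
  have ht : X 0 0 + X 1 1 = 2 := by
    have h2 := eig (X := X) hu (l := 1) (by rw [one_smul]; exact h)
    rw [hd, Matrix.trace_fin_two] at h2
    linear_combination -h2
  by_cases h00 : u 0 = 0
  · have h10 : u 1 ≠ 0 := by
      intro h2
      apply hu
      funext i
      fin_cases i
      · exact h00
      · exact h2
    rw [h00] at h0 h1
    have hb : X 0 1 = 0 := by
      have : X 0 1 * u 1 = 0 := by linear_combination h0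
      exact (mul_eq_zero.1 this).resolve_right h10
    have hdd : X 1 1 = 1 := by
      have : (X 1 1 - 1) * u 1 = 0 := by linear_combination h1
      exact sub_eq_zero.1 ((mul_eq_zero.1 this).resolve_right h10)
    have haa : X 0 0 = 1 := by rw [hdd] at ht; linear_combination ht
    refine ⟨-(X 1 0) / (u 1 * u 1), ?_⟩
    ext i j
    fin_cases i <;> fin_cases j
    · simp [T, haa, h00]
    · simp [T, hb, h00]
    · simp only [T, Fin.mk_one, Fin.zero_eta, of_apply, cons_val', cons_val_zero, cons_val_one,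
        cons_val_fin_one]
      field_simp
    · simp [T, hdd, h00]
  · refine ⟨X 0 1 / (u 0 * u 0), ?_⟩
    have e0 : X 0 0 = 1 - X 0 1 * u 1 / u 0 := by
      field_simp
      linear_combination h0
    have e1 : X 1 1 = 1 + X 0 1 * u 1 / u 0 := by
      have : X 1 1 = 2 - X 0 0 := by linear_combination ht
      rw [this, e0]
      ring
    have e2 : X 1 0 = - (X 0 1 * u 1 * u 1 / (u 0 * u 0)) := by
      have : X 1 0 * u 0 = u 1 - X 1 1 * u 1 := by linear_combination h1
      have h3 : X 1 0 = (u 1 - X 1 1 * u 1) / u 0 := by field_simp; linear_combination this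
      rw [h3, e1]
      field_simp
      ring
    ext i j
    fin_cases i <;> fin_cases j
    · simp only [T, Fin.mk_one, Fin.zero_eta, of_apply, cons_val', cons_val_zero, cons_val_one,
        cons_val_fin_one]
      rw [e0]
      field_simp
    · simp only [T, Fin.mk_one, Fin.zero_eta, of_apply, cons_val', cons_val_zero, cons_val_one,
        cons_val_fin_one]
      field_simp
    · simp only [T, Fin.mk_one, Fin.zero_eta, of_apply, cons_val', cons_val_zero, cons_val_one,
        cons_val_fin_one]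
      rw [e2]
      field_simp
    · simp only [T, Fin.mk_one, Fin.zero_eta, of_apply, cons_val', cons_val_zero, cons_val_one,
        cons_val_fin_one]
      rw [e1]
      field_simp

theorem T_zero' (u : Fin 2 → K) : T u 0 = 1 := Pool.Agent.K7.H87.FJ2.T_zero u

/-- two unipotent matrices whose product is unipotent -/
theorem kolchin {X Y : Matrix (Fin 2) (Fin 2) K} (hX : X.det = 1) (hX1 : X ≠ 1)
    (hY : Y.det = 1) (hYt : Y.trace = 2) (hXY : (X * Y).trace = 2) {u : Fin 2 → K}
    (hu : u ≠ 0) (h : X *ᵥ u = u) : Y *ᵥ u = u := by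
  obtain ⟨f, rfl⟩ := form hX hu h
  have hf : f ≠ 0 := by
    rintro rfl
    exact hX1 (T_zero' u)
  have h1 : f * (u 0 * (Y *ᵥ u) 1 - u 1 * (Y *ᵥ u) 0) = 0 := by
    rw [Matrix.trace_fin_two] at hYt hXY
    simp only [T, Matrix.mul_apply, Fin.sum_univ_two, of_apply, cons_val', cons_val_zero,
      cons_val_one, cons_val_fin_one] at hXY
    simp only [Matrix.mulVec, dotProduct, Fin.sum_univ_two]
    linear_combination hXY - hYt
  have h2 := (mul_eq_zero.1 h1).resolve_left hf
  obtain ⟨i, hi⟩ := Function.ne_iff.1 hu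
  rw [Pi.zero_apply] at hi
  refine fix_of_eig hY hYt hu (l := (Y *ᵥ u) i / u i) ?_
  funext j
  simp only [Pi.smul_apply, smul_eq_mul]
  fin_cases i <;> fin_cases j <;> simp only [Fin.zero_eta, Fin.mk_one] at hi ⊢
  · field_simp
  · field_simp; linear_combination h2
  · field_simp; linear_combination -h2
  · field_simp

theorem comm_of_fix {X Y : Matrix (Fin 2) (Fin 2) K} (hX : X.det = 1) (hY : Y.det = 1)
    {u : Fin 2 → K} (hu : u ≠ 0) (h : X *ᵥ u = u) (h' : Y *ᵥ u = u) : X * Y = Y * X := by
  obtain ⟨f, rfl⟩ := form hX hu h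
  obtain ⟨g, rfl⟩ := form hY hu h'
  rw [T_mul, T_mul, add_comm]

theorem par_of_fix {X : Matrix (Fin 2) (Fin 2) K} (hX : X.det = 1) (hX1 : X ≠ 1)
    {u w : Fin 2 → K} (hu : u ≠ 0) (h : X *ᵥ u = u) (h' : X *ᵥ w = w) : ∃ c : K, w = c • u := by
  obtain ⟨f, rfl⟩ := form hX hu h
  have hf : f ≠ 0 := by
    rintro rfl
    exact hX1 (T_zero' u)
  have h1 : u 0 * w 1 - u 1 * w 0 = 0 := by
    obtain ⟨i, hi⟩ := Function.ne_iff.1 hu
    rw [Pi.zero_apply] at hi
    have h2 := T_mulVec u w f i
    rw [h'] at h2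
    have h3 : f * (u 0 * w 1 - u 1 * w 0) * u i = 0 := by linear_combination -h2
    have h4 := (mul_eq_zero.1 h3).resolve_right hi
    exact (mul_eq_zero.1 h4).resolve_left hf
  obtain ⟨i, hi⟩ := Function.ne_iff.1 hu
  rw [Pi.zero_apply] at hi
  refine ⟨w i / u i, ?_⟩
  funext j
  simp only [Pi.smul_apply, smul_eq_mul]
  fin_cases i <;> fin_cases j <;> simp only [Fin.zero_eta, Fin.mk_one] at hi ⊢
  · field_simp
  · field_simp; linear_combination h1
  · field_simp; linear_combination -h1
  · field_simp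

/-- a fixed vector with entries in the ring -/
theorem exists_fix {X : Matrix (Fin 2) (Fin 2) K} (hX : X.det = 1) (ht : X.trace = 2)
    (hX1 : X ≠ 1) (A : Subring K) (hA : ∀ i j, X i j ∈ A) :
    ∃ u : Fin 2 → K, u ≠ 0 ∧ (∀ i, u i ∈ A) ∧ X *ᵥ u = u := by
  rw [Matrix.trace_fin_two] at ht
  rw [Matrix.det_fin_two] at hX
  have hd : X 1 1 = 2 - X 0 0 := by linear_combination ht
  rw [hd] at hX
  by_cases h : X 0 0 - 1 = 0 ∧ X 1 0 = 0
  · refine ⟨![X 0 1, -(X 0 0 - 1)], ?_, ?_, ?_⟩
    · intro h1
      apply hX1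
      have h2 := congrFun h1 0
      simp only [cons_val_zero, Pi.zero_apply] at h2
      ext i j
      fin_cases i <;> fin_cases j
      · exact sub_eq_zero.1 h.1
      · simpa using h2
      · simpa using h.2
      · show X 1 1 = 1
        rw [hd]
        linear_combination - h.1
    · intro i
      fin_cases i
      · exact hA 0 1
      · exact neg_mem (sub_mem (hA 0 0) (one_mem A))
    · funext i
      fin_cases i <;>
        simp only [Matrix.mulVec, dotProduct, Fin.sum_univ_two, cons_val_zero, cons_val_one,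
          cons_val_fin_one, Fin.zero_eta, Fin.mk_one]
      · ring
      · rw [hd]; linear_combination -hX
  · refine ⟨![X 0 0 - 1, X 1 0], ?_, ?_, ?_⟩
    · intro h1
      apply h
      exact ⟨congrFun h1 0, congrFun h1 1⟩
    · intro i
      fin_cases i
      · exact sub_mem (hA 0 0) (one_mem A)
      · exact hA 1 0
    · funext i
      fin_cases i <;>
        simp only [Matrix.mulVec, dotProduct, Fin.sum_univ_two, cons_val_zero, cons_val_one,
          cons_val_fin_one, Fin.zero_eta, Fin.mk_one]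
      · linear_combination -hX
      · rw [hd]; ring

end alg

section grp

variable {K : Type} [Field K] (v : Valuation K ℤᵐ⁰) {π : K} (hπ : v π = exp (-1))
  (A : Subring K) (hA : ∀ a ∈ A, a ≠ 0 → 1 ≤ v a) {R : Type} [CommRing R] (φ : A →+* R)
  (hφ : ∀ a : A, v (a : K) ≤ 1 → φ a = 0 → a = 0) {G H : Type} [Group G] [Group H]
  (α : G →* GL (Fin 2) A) (β : G →* H) (hαβ : ∀ g, α g = 1 → β g = 1 → g = 1)
  (hker : ∀ g, β g = 1 → GeneralLinearGroup.map φ (α g) = 1)

/-- the action on the tree -/
def aK : G →* GL (Fin 2) K := (GeneralLinearGroup.map A.subtype).comp α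

theorem aK_apply (g : G) (i j : Fin 2) : (aK A α g).val i j = ((α g).val i j : K) := rfl

theorem aK_mem (g : G) (i j : Fin 2) : (aK A α g).val i j ∈ A := ((α g).val i j).2

theorem aK_det (g : G) : (aK A α g).val.det = (((α g).val.det : A) : K) := by
  have h1 : (aK A α g).val = (A.subtype).mapMatrix (α g).val := rfl
  rw [h1, ← RingHom.map_det]
  rfl

theorem aK_trace (g : G) : (aK A α g).val.trace = (((α g).val.trace : A) : K) := by
  rw [Matrix.trace_fin_two, Matrix.trace_fin_two]
  rfl

include hA hφ hker in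
theorem dt_unit {n : G} (hn : β n = 1) : (aK A α n).val.det = 1 := by
  have h1 : ∀ g : G, 1 ≤ v (aK A α g).val.det := by
    intro g
    refine hA _ ?_ ?_
    · rw [aK_det]; exact Subtype.mem _
    · exact ((Matrix.isUnit_iff_isUnit_det _).1 (aK A α g).isUnit).ne_zero
  have h2 : v (aK A α n).val.det ≤ 1 := by
    have h3 := h1 n⁻¹
    have h4 : (aK A α n).val.det * (aK A α n⁻¹).val.det = 1 := by
      rw [← det_mul, ← Units.val_mul, ← map_mul, mul_inv_cancel, map_one, Units.val_one, det_one]
    calc v (aK A α n).val.det = v (aK A α n).val.det * 1 := (mul_one _).symm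
      _ ≤ v (aK A α n).val.det * v (aK A α n⁻¹).val.det := mul_le_mul_right h3 _
      _ = 1 := by rw [← map_mul, h4, map_one]
  have h5 : (α n).val.det - 1 = 0 := by
    apply hφ
    · show v ((((α n).val.det : A) : K) - 1) ≤ 1
      rw [← aK_det]
      refine (Valuation.map_sub _ _ _).trans (max_le h2 ?_)
      rw [map_one]
    · rw [map_sub, map_one, RingHom.map_det]
      have h6 : φ.mapMatrix (α n).val = 1 := congrArg Units.val (hker n hn)
      rw [h6, det_one, sub_self]
  rw [aK_det, sub_eq_zero.1 h5]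
  rfl

include hφ hker in
theorem tr_two {n : G} (hn : β n = 1) (ht : v (aK A α n).val.trace ≤ 1) :
    (aK A α n).val.trace = 2 := by
  have h5 : (α n).val.trace - 2 = 0 := by
    apply hφ
    · show v ((((α n).val.trace : A) : K) - ((2 : A) : K)) ≤ 1
      rw [← aK_trace]
      refine (Valuation.map_sub _ _ _).trans (max_le ht ?_)
      have h2 : ((2 : A) : K) = 1 + 1 := by
        have h3 : (2 : A) = 1 + 1 := by norm_num
        rw [h3]
        rfl
      rw [h2]
      refine (Valuation.map_add _ _ _).trans ?_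
      rw [map_one, max_self]
    · rw [map_sub, Matrix.trace_fin_two, map_add]
      have h6 : φ.mapMatrix (α n).val = 1 := congrArg Units.val (hker n hn)
      have h7 : ∀ i j, φ ((α n).val i j) = (1 : Matrix (Fin 2) (Fin 2) R) i j := by
        intro i j
        rw [← h6]
        rfl
      rw [h7, h7, map_ofNat]
      simp only [Matrix.one_apply_eq]
      norm_num
  rw [aK_trace, sub_eq_zero.1 h5]
  rfl

include hφ hαβ hker in
theorem ent_one {n : G} (hn : β n = 1) (ht : ∀ i j, v ((aK A α n).val i j) ≤ 1) : n = 1 := by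
  refine hαβ n ?_ hn
  apply Units.ext
  ext i j
  congr 1
  have h5 : (α n).val i j - (1 : Matrix (Fin 2) (Fin 2) A) i j = 0 := by
    apply hφ
    · show v ((((α n).val i j : A) : K) - (((1 : Matrix (Fin 2) (Fin 2) A) i j : A) : K)) ≤ 1
      refine (Valuation.map_sub _ _ _).trans (max_le (ht i j) ?_)
      by_cases hij : i = j
      · subst hij
        rw [Matrix.one_apply_eq]
        show v 1 ≤ 1
        rw [map_one]
      · rw [Matrix.one_apply_ne hij]
        show v 0 ≤ 1
        rw [map_zero]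
        exact zero_le
    · have h6 : φ.mapMatrix (α n).val = 1 := congrArg Units.val (hker n hn)
      have h7 : φ ((α n).val i j) = (1 : Matrix (Fin 2) (Fin 2) R) i j := by
        rw [← h6]
        rfl
      rw [map_sub, h7]
      by_cases hij : i = j
      · subst hij
        rw [Matrix.one_apply_eq, Matrix.one_apply_eq, map_one, sub_self]
      · rw [Matrix.one_apply_ne hij, Matrix.one_apply_ne hij, map_zero, sub_self]
  exact sub_eq_zero.1 h5

include hA in
theorem eig_ge {g : G} {u : Fin 2 → K} (hu : u ≠ 0) (huA : ∀ i, u i ∈ A) {l : K}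
    (h : (aK A α g).val *ᵥ u = l • u) : 1 ≤ v l := by
  by_contra hl
  push Not at hl
  obtain ⟨i, hi⟩ := Function.ne_iff.1 hu
  rw [Pi.zero_apply] at hi
  have hl0 : l ≠ 0 := by
    rintro rfl
    rw [zero_smul] at h
    apply hu
    have h1 : (aK A α g⁻¹).val *ᵥ ((aK A α g).val *ᵥ u) = u := by
      rw [Matrix.mulVec_mulVec, ← Units.val_mul, ← map_mul, inv_mul_cancel, map_one, Units.val_one,
        Matrix.one_mulVec]
    rw [← h1, h, Matrix.mulVec_zero]
  have hpow : ∀ k : ℕ, (aK A α (g ^ k)).val *ᵥ u = (l ^ k) • u := by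
    intro k
    induction k with
    | zero => rw [pow_zero, pow_zero, map_one, Units.val_one, Matrix.one_mulVec, one_smul]
    | succ k ih =>
      rw [pow_succ', map_mul, Units.val_mul, ← Matrix.mulVec_mulVec, ih, Matrix.mulVec_smul, h,
        smul_smul, ← pow_succ]
  have hge : ∀ k : ℕ, 1 ≤ v l ^ k * v (u i) := by
    intro k
    rw [← map_pow, ← map_mul]
    refine hA _ ?_ (mul_ne_zero (pow_ne_zero _ hl0) hi)
    have h1 := congrFun (hpow k) i
    rw [Pi.smul_apply, smul_eq_mul] at h1
    rw [← h1]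
    simp only [Matrix.mulVec, dotProduct, Fin.sum_univ_two]
    exact add_mem (mul_mem (aK_mem A α _ _ _) (huA 0)) (mul_mem (aK_mem A α _ _ _) (huA 1))
  have hv0 : v l ≠ 0 := (Valuation.ne_zero_iff v).2 hl0
  have hvu : v (u i) ≠ 0 := (Valuation.ne_zero_iff v).2 hi
  have h1 := hge ((log (v (u i))).toNat + 1)
  rw [← log_le_log one_ne_zero (mul_ne_zero (pow_ne_zero _ hv0) hvu), log_one,
    log_mul (pow_ne_zero _ hv0) hvu, log_pow] at h1
  have h2 : log (v l) < 0 := by
    rw [← log_one, log_lt_log hv0 one_ne_zero]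
    exact hl
  have h3 : ((log (v (u i))).toNat + 1) • log (v l) ≤ -(((log (v (u i))).toNat : ℤ) + 1) := by
    rw [nsmul_eq_mul]
    push_cast
    nlinarith
  have h4 := Int.self_le_toNat (log (v (u i)))
  omega

include hA hφ hker in
/-- elements of the kernel which fix a line -/
theorem fix_line {n : G} (hn : β n = 1) {u : Fin 2 → K} (hu : u ≠ 0) (huA : ∀ i, u i ∈ A) {l : K}
    (h : (aK A α n).val *ᵥ u = l • u) : (aK A α n).val *ᵥ u = u := by
  have hd := dt_unit v A hA φ hφ α β hker hn
  have h1 := eig_ge v A hA α hu huA h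
  have hl0 : l ≠ 0 := by
    rintro rfl
    rw [map_zero] at h1
    exact absurd h1 (not_le.2 zero_lt_one)
  have h2 : (aK A α n⁻¹).val *ᵥ u = l⁻¹ • u := by
    have h3 : (aK A α n⁻¹).val *ᵥ ((aK A α n).val *ᵥ u) = u := by
      rw [Matrix.mulVec_mulVec, ← Units.val_mul, ← map_mul, inv_mul_cancel, map_one, Units.val_one,
        Matrix.one_mulVec]
    rw [h, Matrix.mulVec_smul] at h3
    rw [← h3, smul_smul, inv_mul_cancel₀ hl0, one_smul, h3]
  have h4 := eig_ge v A hA α hu huA h2
  rw [map_inv₀] at h4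
  have h5 : v l ≤ 1 := by
    have hv0 : v l ≠ 0 := (Valuation.ne_zero_iff v).2 hl0
    calc v l = v l * 1 := (mul_one _).symm
      _ ≤ v l * (v l)⁻¹ := mul_le_mul_right h4 _
      _ = 1 := mul_inv_cancel₀ hv0
  have h6 := eig hu h
  rw [hd] at h6
  have h7 : (aK A α n).val.trace = l + l⁻¹ := by
    field_simp
    linear_combination -h6
  have h8 := tr_two v A φ hφ α β hker hn (by
    rw [h7]
    refine (Valuation.map_add _ _ _).trans (max_le h5 ?_)
    rw [map_inv₀]
    have hv0 : v l ≠ 0 := (Valuation.ne_zero_iff v).2 hl0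
    exact inv_le_one_of_one_le₀ h1)
  exact fix_of_eig hd h8 hu h

end grp

end Pool.Agent.K7.H87.FJ3
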