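import Pool.Agent.K7.H87.FJ3.OP

/-!
# `GL₂` over rings with one place at infinity: the theorem
-/

set_option autoImplicit false

namespace Pool.Agent.K7.H87.FJ3

open Matrix WithZero Pointwise Pool.Agent.R684.FP Pool.Agent.Y110.FJ
open Pool.Agent.K7.H87.FJ2 (T T_mul T_mulVec solv_sup)

theorem PT.zero_of_sim {V : Type} {d : V → V → ℕ} (h : PT V d) {x y : V}
    (hs : Sim (PT.fam d) x y) : d x y = 0 := by
  by_contra h0
  obtain ⟨z, hz1, hz2⟩ := h.geo x y h0
  have hbd := h.bd hz1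
  have hy : y ∈ PT.half d x z := by
    rw [PT.mem_half, h.symm y z, h.symm y x]
    omega
  exact hbd.1 ((hs _ ⟨x, z, hz1, rfl⟩).2 hy)

section grp

variable {K : Type} [Field K] (v : Valuation K ℤᵐ⁰) {π : K} (hπ : v π = exp (-1))
  (A : Subring K) (hA : ∀ a ∈ A, a ≠ 0 → 1 ≤ v a) {R : Type} [CommRing R] (φ : A →+* R)
  (hφ : ∀ a : A, v (a : K) ≤ 1 → φ a = 0 → a = 0) {G H : Type} [Group G] [Group H]
  (α : G →* GL (Fin 2) A) (β : G →* H) (hαβ : ∀ g, α g = 1 → β g = 1 → g = 1)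
  (hker : ∀ g, β g = 1 → GeneralLinearGroup.map φ (α g) = 1)

/-- the stabilizer of a vertex in the kernel -/
def SV (x : GL (Fin 2) K) (n : G) : Prop := β n = 1 ∧ ds v (aK A α n * x) x = 0

include hπ in
theorem SV.mul {x : GL (Fin 2) K} {n m : G} (hn : SV v A α β x n) (hm : SV v A α β x m) :
    SV v A α β x (n * m) := by
  refine ⟨by rw [map_mul, hn.1, hm.1, one_mul], ?_⟩
  have h := pt v hπ
  have h1 := h.tri (aK A α (n * m) * x) x (aK A α n * x)
  rw [map_mul, mul_assoc, ds_mul, hm.2, hn.2] at h1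
  rw [map_mul, mul_assoc]
  omega

include hπ in
theorem SV.congr {x y : GL (Fin 2) K} (hxy : ds v x y = 0) {n : G} (hn : SV v A α β x n) :
    SV v A α β y n := by
  refine ⟨hn.1, ?_⟩
  have h := pt v hπ
  have h1 := h.tri (aK A α n * y) y (aK A α n * x)
  have h2 := h.tri (aK A α n * x) y x
  rw [ds_mul, h.symm y x] at h1
  have := hn.2
  omega

theorem SV.conj {x : GL (Fin 2) K} {n m : G} (hn : SV v A α β x n) :
    SV v A α β (aK A α m * x) (m * n * m⁻¹) := by
  refine ⟨by rw [map_mul, map_mul, hn.1, mul_one, ← map_mul, mul_inv_cancel, map_one], ?_⟩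
  have h1 : aK A α (m * n * m⁻¹) * (aK A α m * x) = aK A α m * (aK A α n * x) := by
    rw [← mul_assoc, ← map_mul, ← mul_assoc, ← map_mul]
    congr 2
    group
  rw [h1, ds_mul, hn.2]

include hαβ in
theorem aK_inj {n : G} (hn : β n = 1) (h : (aK A α n).val = 1) : n = 1 := by
  refine hαβ n ?_ hn
  apply Units.ext
  ext i j
  have h1 := congrFun (congrFun h i) j
  have h2 : (((α n).val i j : A) : K) = (1 : Matrix (Fin 2) (Fin 2) K) i j := h1
  rw [h2]
  by_cases hij : i = j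
  · subst hij
    rw [Units.val_one, Matrix.one_apply_eq, Matrix.one_apply_eq]
    rfl
  · rw [Units.val_one, Matrix.one_apply_ne hij, Matrix.one_apply_ne hij]
    rfl

include hA hφ hker in
theorem SV.tr {x : GL (Fin 2) K} {n : G} (hn : SV v A α β x n) :
    (aK A α n).val.trace = 2 := by
  refine tr_two v A φ hφ α β hker hn.1 ?_
  obtain ⟨y, hy⟩ : ∃ y, y = x⁻¹ * (aK A α n * x) := ⟨_, rfl⟩
  have hd : (aK A α n).val.det = 1 := dt_unit v A hA φ hφ α β hker hn.1
  have h1 : ds v y 1 = 0 := by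
    have := ds_mul v x y 1
    rw [hy, mul_inv_cancel_left, mul_one, hn.2] at this
    rw [hy]
    exact this.symm
  have hyd : y.val.det = 1 := by
    rw [hy, Units.val_mul, Units.val_mul, det_mul, det_mul, hd, one_mul, ← det_mul, ← Units.val_mul,
      inv_mul_cancel, Units.val_one, det_one]
  have hyt : y.val.trace = (aK A α n).val.trace := by
    rw [hy, Units.val_mul, Matrix.trace_mul_comm, ← Units.val_mul, mul_assoc, mul_inv_cancel,
      mul_one]
  have h2 := ds_eq v y 1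
  rw [h1, dt_one] at h2
  have h3 : dt v y = 0 := by unfold dt; rw [hyd, map_one, log_one]
  rw [h3] at h2
  have h4 : log (mx v y.val 1) = 0 := by
    have : lm v y 1 = log (mx v y.val 1) := rfl
    push_cast at h2
    omega
  have h5 : mx v y.val 1 ≤ 1 := by
    have hne : mx v y.val 1 ≠ 0 := by
      have := mx_ne (v := v) y 1
      rwa [Units.val_one] at this
    rw [← exp_log hne, h4, exp_zero]
  rw [mx_symm] at h5
  rw [← hyt, Matrix.trace_fin_two]
  exact (Valuation.map_add _ _ _).trans (max_le ((entry_le v _ _ _).trans h5)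
    ((entry_le v _ _ _).trans h5))

include hπ hA hφ hker hαβ in
theorem SV.fix {x : GL (Fin 2) K} {n m : G} (hn : SV v A α β x n) (hn1 : n ≠ 1)
    (hm : SV v A α β x m) {u : Fin 2 → K} (hu : u ≠ 0) (h : (aK A α n).val *ᵥ u = u) :
    (aK A α m).val *ᵥ u = u := by
  refine kolchin (dt_unit v A hA φ hφ α β hker hn.1) (fun h1 => hn1 (aK_inj A α β hαβ hn.1 h1))
    (dt_unit v A hA φ hφ α β hker hm.1) (hm.tr v A hA φ hφ α β hker) ?_ hu h
  have h1 := (hn.mul v hπ A α β hm).tr v A hA φ hφ α β hker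
  rwa [map_mul, Units.val_mul] at h1

/-- the relation on the vertices -/
def Pr (x y : GL (Fin 2) K) : Prop := ds v x y = 0 ∨ ∃ u : Fin 2 → K, u ≠ 0 ∧ (∀ i, u i ∈ A) ∧
  (∃ n, SV v A α β x n ∧ n ≠ 1) ∧ (∃ n, SV v A α β y n ∧ n ≠ 1) ∧
  (∀ n, SV v A α β x n → (aK A α n).val *ᵥ u = u) ∧
  (∀ n, SV v A α β y n → (aK A α n).val *ᵥ u = u)

include hπ hA hφ hker hαβ in
theorem Pr.trans {x y z : GL (Fin 2) K} (h : Pr v A α β x y) (h' : Pr v A α β y z) :
    Pr v A α β x z := by
  have ht := pt v hπ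
  rcases h with h | ⟨u, hu, huA, ⟨n, hn, hn1⟩, ⟨m, hm, hm1⟩, h1, h2⟩
  · rcases h' with h' | ⟨u, hu, huA, ⟨n, hn, hn1⟩, ⟨m, hm, hm1⟩, h1, h2⟩
    · left
      have := ht.tri x z y
      omega
    · right
      have h'' : ds v y x = 0 := by rw [ht.symm, h]
      exact ⟨u, hu, huA, ⟨n, hn.congr v hπ A α β h'', hn1⟩, ⟨m, hm, hm1⟩,
        fun k hk => h1 k (hk.congr v hπ A α β h), h2⟩
  · rcases h' with h' | ⟨u', hu', huA', ⟨n', hn', hn1'⟩, ⟨m', hm', hm1'⟩, h1', h2'⟩
    · right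
      have h'' : ds v z y = 0 := by rw [ht.symm, h']
      exact ⟨u, hu, huA, ⟨n, hn, hn1⟩, ⟨m, hm.congr v hπ A α β h', hm1⟩, h1,
        fun k hk => h2 k (hk.congr v hπ A α β h'')⟩
    · right
      obtain ⟨c, hc⟩ := par_of_fix (dt_unit v A hA φ hφ α β hker hm.1)
        (fun h1 => hm1 (aK_inj A α β hαβ hm.1 h1)) hu' (h1' m hm) (h2 m hm)
      refine ⟨u, hu, huA, ⟨n, hn, hn1⟩, ⟨m', hm', hm1'⟩, h1, fun k hk => ?_⟩
      rw [hc, Matrix.mulVec_smul, h2' k hk]

variable [MulAction G (GL (Fin 2) K)] (hact : ∀ (g : G) (x : GL (Fin 2) K), g • x = aK A α g * x)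

include hact in
theorem inv_ds (g : G) (x y : GL (Fin 2) K) : ds v (g • x) (g • y) = ds v x y := by
  rw [hact, hact, ds_mul]

include hπ hA hφ hker hαβ hact in
theorem Pr.one {x y : GL (Fin 2) K} (hxy : ds v x y = 1)
    (hn : PT.half (ds v) x y ∉ tame (PT.fam (ds v)) β.ker) : Pr v A α β x y := by
  have ht := pt v hπ
  have hd := inv_ds v A α hact
  have hF : Nst G (PT.fam (ds v)) := ht.nst hd
  have h1 : ∃ n ∈ β.ker, n • PT.half (ds v) x y = PT.half (ds v) x y ∧ n ≠ 1 := by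
    by_contra hcon
    push Not at hcon
    exact hn ⟨⟨x, y, hxy, rfl⟩, hcon⟩
  obtain ⟨n, hn1, hn2, hn3⟩ := h1
  have hbd := ht.bd hxy
  have hbd' := hbd.smul hF n
  rw [hn2] at hbd'
  have hx : SV v A α β x n := by
    refine ⟨hn1, ?_⟩
    have := ht.zero_of_sim (hbd'.unique hF ⟨x, y, hxy, rfl⟩ hbd)
    rwa [hact] at this
  have hy : SV v A α β y n := by
    refine ⟨hn1, ?_⟩
    have := ht.zero_of_sim (hbd'.unique' hF ⟨x, y, hxy, rfl⟩ hbd)
    rwa [hact] at this
  right
  obtain ⟨u, hu, huA, huf⟩ := exists_fix (dt_unit v A hA φ hφ α β hker hn1)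
    (hx.tr v A hA φ hφ α β hker) (fun h1 => hn3 (aK_inj A α β hαβ hn1 h1)) A (aK_mem A α n)
  exact ⟨u, hu, huA, ⟨n, hx, hn3⟩, ⟨n, hy, hn3⟩,
    fun k hk => hx.fix v hπ A hA φ hφ α β hαβ hker hn3 hk hu huf,
    fun k hk => hy.fix v hπ A hA φ hφ α β hαβ hker hn3 hk hu huf⟩

include hπ hA hφ hker hαβ hact in
/-- the stabilizer of a class of vertices -/
theorem st_cases (hF' : Nst G (tame (PT.fam (ds v)) β.ker)) (x : GL (Fin 2) K) :
    (∀ n ∈ st hF' β.ker x, SV v A α β x n) ∨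
    ∃ u : Fin 2 → K, u ≠ 0 ∧ ∀ n ∈ st hF' β.ker x, (aK A α n).val *ᵥ u = u := by
  have ht := pt v hπ
  have hpath : ∀ n ∈ st hF' β.ker x, Pr v A α β (n • x) x := by
    intro n hn
    exact PT.path (ds v) ht (tame_sub _ _) (P := Pr v A α β) (fun x y h => Or.inl h)
      (fun x y z h h' => Pr.trans v hπ A hA φ hφ α β hαβ hker h h')
      (fun x y hxy h => Pr.one v hπ A hA φ hφ α β hαβ hker hact hxy h) hn.2
  by_cases hx : ∃ n, SV v A α β x n ∧ n ≠ 1
  · right
    obtain ⟨m, hm, hm1⟩ := hx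
    have hmd := dt_unit v A hA φ hφ α β hker hm.1
    have hmX : (aK A α m).val ≠ 1 := fun h1 => hm1 (aK_inj A α β hαβ hm.1 h1)
    obtain ⟨u, hu, huA, huf⟩ := exists_fix hmd (hm.tr v A hA φ hφ α β hker) hmX A (aK_mem A α m)
    refine ⟨u, hu, fun n hn => ?_⟩
    rcases hpath n hn with h | ⟨w, hw, hwA, _, _, h1, h2⟩
    · have hn' : SV v A α β x n := ⟨hn.1, by rwa [hact] at h⟩
      exact hm.fix v hπ A hA φ hφ α β hαβ hker hm1 hn' hu huf
    · -- `n` maps the line of `w` to itself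
      have h3 := h2 m hm
      have h4 := h1 (n * m * n⁻¹) (by
        rw [hact]
        exact hm.conj v A α β)
      have h5 : (aK A α m).val *ᵥ ((aK A α n⁻¹).val *ᵥ w) = (aK A α n⁻¹).val *ᵥ w := by
        have h6 : (aK A α n⁻¹).val *ᵥ ((aK A α (n * m * n⁻¹)).val *ᵥ w) =
            (aK A α m).val *ᵥ ((aK A α n⁻¹).val *ᵥ w) := by
          rw [Matrix.mulVec_mulVec, Matrix.mulVec_mulVec, ← Units.val_mul, ← Units.val_mul,
            ← map_mul, ← map_mul]
          congr 3
          group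
        rw [← h6, h4]
      obtain ⟨c, hc⟩ := par_of_fix hmd hmX hw h3 h5
      have hninv : β n⁻¹ = 1 := by rw [map_inv, show β n = 1 from hn.1, inv_one]
      have h7 := fix_line v A hA φ hφ α β hker hninv hw hwA hc
      have h8 : (aK A α n).val *ᵥ w = w := by
        conv_lhs => rw [← h7]
        rw [Matrix.mulVec_mulVec, ← Units.val_mul, ← map_mul, mul_inv_cancel, map_one,
          Units.val_one, Matrix.one_mulVec]
      obtain ⟨c', hc'⟩ := par_of_fix hmd hmX hw h3 huf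
      rw [hc', Matrix.mulVec_smul, h8]
  · left
    push Not at hx
    intro n hn
    rcases hpath n hn with h | ⟨w, hw, hwA, _, ⟨m, hm, hm1⟩, h1, h2⟩
    · exact ⟨hn.1, by rwa [hact] at h⟩
    · exact absurd (hx m hm) hm1

include hπ hA hφ hker hαβ hact in
theorem st_comm (hF' : Nst G (tame (PT.fam (ds v)) β.ker)) (x : GL (Fin 2) K) {n m : G}
    (hn : n ∈ st hF' β.ker x) (hm : m ∈ st hF' β.ker x) : n * m = m * n := by
  have hnd := dt_unit v A hA φ hφ α β hker (n := n) hn.1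
  have hmd := dt_unit v A hA φ hφ α β hker (n := m) hm.1
  have key : (aK A α n).val * (aK A α m).val = (aK A α m).val * (aK A α n).val → n * m = m * n := by
    intro h
    have h1 : n * m * (m * n)⁻¹ = 1 := by
      refine aK_inj A α β hαβ ?_ ?_
      · have h3 : β n = 1 := hn.1
        have h4 : β m = 1 := hm.1
        simp [h3, h4]
      · rw [← Units.val_mul, ← Units.val_mul, ← map_mul, ← map_mul] at h
        have h2 : aK A α (n * m) = aK A α (m * n) := Units.ext h
        rw [map_mul, h2, ← map_mul, mul_inv_cancel, map_one, Units.val_one]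
    exact mul_inv_eq_one.1 h1
  rcases st_cases v hπ A hA φ hφ α β hαβ hker hact hF' x with h | ⟨u, hu, h⟩
  · by_cases hn1 : n = 1
    · rw [hn1, one_mul, mul_one]
    · have hnS := h n hn
      obtain ⟨u, hu, huA, huf⟩ := exists_fix hnd (hnS.tr v A hA φ hφ α β hker)
        (fun h1 => hn1 (aK_inj A α β hαβ hn.1 h1)) A (aK_mem A α n)
      exact key (comm_of_fix hnd hmd hu huf
        (hnS.fix v hπ A hA φ hφ α β hαβ hker hn1 (h m hm) hu huf))
  · exact key (comm_of_fix hnd hmd hu (h n hn) (h m hm))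

include hπ hA hφ hker hαβ hact in
theorem SV_one {n : G} (hn : SV v A α β 1 n) : n = 1 := by
  refine ent_one v A φ hφ α β hαβ hker hn.1 fun i j => ?_
  have h2 := ds_eq v (aK A α n) 1
  have h3 : ds v (aK A α n) 1 = 0 := by
    have := hn.2
    rwa [mul_one] at this
  rw [h3, dt_one] at h2
  have h4 : dt v (aK A α n) = 0 := by
    unfold dt; rw [dt_unit v A hA φ hφ α β hker hn.1, map_one, log_one]
  rw [h4] at h2
  have h5 : log (mx v (aK A α n).val 1) = 0 := by
    have : lm v (aK A α n) 1 = log (mx v (aK A α n).val 1) := rfl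
    push_cast at h2
    omega
  have h6 : mx v (aK A α n).val 1 ≤ 1 := by
    have hne : mx v (aK A α n).val 1 ≠ 0 := by
      have := mx_ne (v := v) (aK A α n) 1
      rwa [Units.val_one] at this
    rw [← exp_log hne, h5, exp_zero]
  rw [mx_symm] at h6
  exact (entry_le v _ _ _).trans h6

end grp

variable {C : ∀ (G : Type) [Group G], Prop}

/-- **the theorem on rings with one place at infinity** -/
theorem one_place (hC : ClosedE C) (hFb : FbC C)
    (hS : ∀ (S : Type) [Group S], Group.IsSolvable S → C S)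
    {K : Type} [Field K] (v : Valuation K ℤᵐ⁰) {π : K} (hπ : v π = exp (-1))
    (A : Subring K) (hA : ∀ a ∈ A, a ≠ 0 → 1 ≤ v a) {R : Type} [CommRing R] (φ : A →+* R)
    (hφ : ∀ a : A, v (a : K) ≤ 1 → φ a = 0 → a = 0) {G H : Type} [Group G] [Group H]
    (α : G →* GL (Fin 2) A) (β : G →* H) (hαβ : ∀ g, α g = 1 → β g = 1 → g = 1)
    (hker : ∀ g, β g = 1 → GeneralLinearGroup.map φ (α g) = 1) (hH : C H) : C G := by
  letI : MulAction G (GL (Fin 2) K) := MulAction.compHom _ (aK A α)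
  have hact : ∀ (g : G) (x : GL (Fin 2) K), g • x = aK A α g * x := fun g x => rfl
  have ht := pt v hπ
  have hd := inv_ds v A α hact
  have hF : Nst G (PT.fam (ds v)) := ht.nst hd
  have hF' : Nst G (tame (PT.fam (ds v)) β.ker) := nst_tame hF β.ker
  refine nested_closed hC hFb hF' β.ker (fun H hH n hn h => hH.2 n hn h) ?_ 1 ?_ ?_ ?_
  · rintro _ ⟨⟨x, y, hxy, rfl⟩, _⟩ n hn h
    have hbd := ht.bd hxy
    have h1 := hbd.smul hF n
    rw [h] at h1
    have h2 := hbd.cpl hF
    have h3 := ht.zero_of_sim (h1.unique hF (hF.cpl _ ⟨x, y, hxy, rfl⟩) h2)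
    -- `n x` is at distance `0` from `y`
    have h4 : ds v (n • x) x = 1 := by
      rw [ht.symm, ← hxy]
      exact ht.eq_of_zero h3 x
    have h5 := ds_eq v (n • x) x
    have h6 : dt v (n • x) = dt v x := by
      rw [hact]
      unfold dt
      rw [Units.val_mul, det_mul, dt_unit v A hA φ hφ α β hker hn, one_mul]
    rw [h4, h6] at h5
    push_cast at h5
    omega
  · intro n hn hs
    have hmem : n ∈ st hF' β.ker 1 := ⟨hn, hs⟩
    rcases st_cases v hπ A hA φ hφ α β hαβ hker hact hF' 1 with h | ⟨u, hu, h⟩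
    · exact SV_one v hπ A hA φ hφ α β hαβ hker hact (h n hmem)
    · -- the stabilizer of `1` is trivial
      have hpath : Pr v A α β (n • 1) 1 :=
        PT.path (ds v) ht (tame_sub _ _) (P := Pr v A α β) (fun x y h => Or.inl h)
          (fun x y z h h' => Pr.trans v hπ A hA φ hφ α β hαβ hker h h')
          (fun x y hxy h => Pr.one v hπ A hA φ hφ α β hαβ hker hact hxy h) hs
      rcases hpath with h1 | ⟨w, _, _, _, ⟨m, hm, hm1⟩, _, _⟩
      · exact SV_one v hπ A hA φ hφ α β hαβ hker hact ⟨hn, by rwa [hact] at h1⟩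
      · exact absurd (SV_one v hπ A hA φ hφ α β hαβ hker hact hm) hm1
  · refine hC.base.of_injective _ _ (QuotientGroup.kerLift β) (QuotientGroup.kerLift_injective β) hH
  · intro x g hg
    apply hS
    exact solv_sup _ (fun a ha b hb => st_comm v hπ A hA φ hφ α β hαβ hker hact hF' x ha hb) g hg

end Pool.Agent.K7.H87.FJ3
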