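import Pool.Agent.K7.H87.FJ3.Nest

/-!
# Free product decompositions for groups acting on nested families

`N` is a subgroup of `G` which acts freely on the half-spaces and without inversions.
-/

set_option autoImplicit false

namespace Pool.Agent.K7.H87.FJ3

open Pointwise

/-- ping-pong with a base point -/
theorem lift_inj_of_base {G V I : Type} [Group G] [MulAction G V] (A : I → Subgroup G)
    (X : I → Set V) (x0 : V) (h0 : ∀ i, x0 ∉ X i)
    (h1 : ∀ i, ∀ a ∈ A i, a ≠ 1 → a • x0 ∈ X i)
    (h2 : ∀ i j, i ≠ j → ∀ a ∈ A i, a ≠ 1 → ∀ x ∈ X j, a • x ∈ X i) :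
    Function.Injective (Monoid.CoprodI.lift fun i => (A i).subtype) := by
  classical
  rw [injective_iff_map_eq_one]
  intro w hw
  obtain ⟨w, rfl⟩ := Monoid.CoprodI.Word.equiv.symm.surjective w
  by_contra hne
  have hnil : w.toList ≠ [] := by
    intro h
    apply hne
    have : w = Monoid.CoprodI.Word.empty := by
      ext1
      exact h
    rw [this]
    rfl
  -- nonempty words
  have key : ∀ {i j : I} (w : Monoid.CoprodI.NeWord (fun i => A i) i j),
      (Monoid.CoprodI.lift fun i => (A i).subtype) w.prod • x0 ∈ X i ∧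
      ∀ k, k ≠ j → ∀ x ∈ X k, (Monoid.CoprodI.lift fun i => (A i).subtype) w.prod • x ∈ X i := by
    intro i j w
    induction w with
    | @singleton i a ha =>
      simp only [Monoid.CoprodI.NeWord.prod_singleton, Monoid.CoprodI.lift_of]
      have ha' : (a : G) ≠ 1 := fun h => ha (Subtype.ext h)
      exact ⟨h1 i a a.2 ha', fun k hk x hx => h2 i k hk.symm a a.2 ha' x hx⟩
    | @append i j k l w1 hne w2 ih1 ih2 =>
      rw [Monoid.CoprodI.NeWord.append_prod, map_mul]
      refine ⟨?_, fun m hm x hx => ?_⟩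
      · rw [mul_smul]
        exact ih1.2 k hne.symm _ ih2.1
      · rw [mul_smul]
        exact ih1.2 k hne.symm _ (ih2.2 m hm x hx)
  obtain ⟨i, j, w', hw'⟩ := Monoid.CoprodI.NeWord.of_word w (by
    intro h
    apply hnil
    rw [h]
    rfl)
  have h3 := (key w').1
  have h4 : w'.prod = Monoid.CoprodI.Word.equiv.symm w := by
    rw [← hw']
    rfl
  rw [h4, hw, one_smul] at h3
  exact h0 _ h3

end Pool.Agent.K7.H87.FJ3
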