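import Pool.Agent.K7.H87.FJ3.Leaf
import Pool.Agent.R46.TreeMetric
import Pool.Agent.Helper270.HNN

/-!
# Groups acting on trees
-/

set_option autoImplicit false

namespace Pool.Agent.K7.H87.FJ3

open Pointwise Pool.Agent.R684.FP Pool.Agent.Y110.FJ SimpleGraph
open Pool.Agent.R941.FJ (C_cyc C_le C_equiv)
open Pool.Agent.R46.TreeMetric (F1 F2 F3 exists_closer)
open Pool.Agent.Helper270.Tree (TreeAct)

section metric

variable {V : Type} {Γ : SimpleGraph V}

theorem dist_even (hΓ : Γ.IsTree) (x y z : V) :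
    Even (Γ.dist x y + Γ.dist y z + Γ.dist x z) := by
  obtain ⟨n, hn⟩ : ∃ n, n = Γ.dist x y := ⟨_, rfl⟩
  induction n generalizing x with
  | zero =>
    have h1 : x = y := (hΓ.connected.dist_eq_zero_iff).1 hn.symm
    subst h1
    rw [dist_self, zero_add]
    exact ⟨_, rfl⟩
  | succ n ih =>
    have hxy : x ≠ y := by
      rintro rfl
      rw [dist_self] at hn
      omega
    obtain ⟨c, hc, hcy⟩ := exists_closer hΓ hxy
    obtain ⟨k, hk⟩ := ih c (by omega)
    rcases F1 hΓ hc z with h1 | h1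
    · exact ⟨k + 1, by omega⟩
    · exact ⟨k, by omega⟩

theorem dist_four (hΓ : Γ.IsTree) (x y z w : V) : Γ.dist x y + Γ.dist z w ≤
    max (Γ.dist x z + Γ.dist y w) (Γ.dist x w + Γ.dist y z) := by
  have tri : ∀ a b c : V, Γ.dist a b ≤ Γ.dist a c + Γ.dist c b :=
    fun a b c => hΓ.connected.dist_triangle
  obtain ⟨n, hn⟩ : ∃ n, n = Γ.dist x y := ⟨_, rfl⟩
  induction n generalizing x with
  | zero =>
    have h1 : x = y := (hΓ.connected.dist_eq_zero_iff).1 hn.symm
    subst h1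
    rw [dist_self, zero_add]
    have := tri z w x
    rw [Γ.dist_comm (u := z) (v := x)] at this
    omega
  | succ n ih =>
    have hxy : x ≠ y := by
      rintro rfl
      rw [dist_self] at hn
      omega
    obtain ⟨c, hc, hcy⟩ := exists_closer hΓ hxy
    have h0 := ih c (by omega)
    have e1 := Γ.dist_comm (u := z) (v := x)
    have e2 := Γ.dist_comm (u := w) (v := x)
    have e3 := Γ.dist_comm (u := z) (v := y)
    have e4 := Γ.dist_comm (u := w) (v := y)
    have t1 := tri z w x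
    rcases F1 hΓ hc z with h1 | h1 <;> rcases F1 hΓ hc w with h2 | h2
    · omega
    · -- `w` is on the side of `x`
      have h3 := F2 hΓ hc hcy h2
      have e5 := Γ.dist_comm (u := c) (v := y)
      omega
    · have h3 := F2 hΓ hc hcy h1
      have e5 := Γ.dist_comm (u := c) (v := y)
      omega
    · have h3 := F2 hΓ hc hcy h1
      have e5 := Γ.dist_comm (u := c) (v := y)
      omega

theorem pt_tree (hΓ : Γ.IsTree) : PT V Γ.dist where
  refl := fun x => dist_self
  symm := fun x y => Γ.dist_comm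
  even := dist_even hΓ
  four := dist_four hΓ
  geo := by
    intro x y h
    have hxy : x ≠ y := by
      rintro rfl
      exact h dist_self
    obtain ⟨c, hc, hcy⟩ := exists_closer hΓ hxy
    exact ⟨c, dist_eq_one_iff_adj.2 hc, hcy.symm⟩

end metric

theorem PT.zero_of_sim' {V : Type} {d : V → V → ℕ} (h : PT V d) {x y : V}
    (hs : Sim (PT.fam d) x y) : d x y = 0 := by
  by_contra h0
  obtain ⟨z, hz1, hz2⟩ := h.geo x y h0
  have hbd := h.bd hz1
  have hy : y ∈ PT.half d x z := by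
    rw [PT.mem_half, h.symm y z, h.symm y x]
    omega
  exact hbd.1 ((hs _ ⟨x, z, hz1, rfl⟩).2 hy)

variable {C : ∀ (G : Type) [Group G], Prop} {G V : Type} [Group G] [MulAction G V]
  {Γ : SimpleGraph V}

/-- the edges with a nontrivial stabilizer in `N` -/
def wild (Γ : SimpleGraph V) (N : Subgroup G) : SimpleGraph V where
  Adj x y := Γ.Adj x y ∧ ∃ n ∈ N, n ≠ 1 ∧ n • x = x ∧ n • y = y
  symm := ⟨fun x y h => ⟨h.1.symm, by
    obtain ⟨n, h1, h2, h3, h4⟩ := h.2
    exact ⟨n, h1, h2, h4, h3⟩⟩⟩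
  loopless := ⟨fun x h => Γ.loopless.irrefl x h.1⟩

/-- **groups acting on trees**: `S v` contains the stabilizer of the component of `v` of the forest of
the edges with a nontrivial stabilizer in `N` -/
theorem tree_closed (hC : ClosedE C) (hFb : FbC C) (hT : TreeAct G Γ) (N : Subgroup G) [N.Normal]
    (hQ : C (G ⧸ N)) (S : V → Subgroup G) (hS : ∀ v g, (wild Γ N).Reachable v (g • v) → g ∈ S v)
    (hst : ∀ v : V, C ↥(S v)) : C G := by
  have hΓ := hT.isTree
  have ht := pt_tree hΓ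
  have hd : ∀ (g : G) x y, Γ.dist (g • x) (g • y) = Γ.dist x y := hT.dist_smul
  have hF : Nst G (PT.fam Γ.dist) := ht.nst hd
  have hF' : Nst G (tame (PT.fam Γ.dist) N) := nst_tame hF N
  obtain ⟨v0⟩ := hΓ.connected.nonempty
  refine nested_closed' hC hFb hF' N (fun H hH n hn h => hH.2 n hn h) ?_ v0 hQ ?_
  · rintro _ ⟨⟨x, y, hxy, rfl⟩, _⟩ n hn h
    have hbd := ht.bd hxy
    have h1 := hbd.smul hF n
    rw [h] at h1
    have h2 := hbd.cpl hF
    have h3 := ht.zero_of_sim' (h1.unique hF (hF.cpl _ ⟨x, y, hxy, rfl⟩) h2)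
    have h4 := ht.zero_of_sim' (h1.unique' hF (hF.cpl _ ⟨x, y, hxy, rfl⟩) h2)
    exact hT.noInv n x y (dist_eq_one_iff_adj.1 hxy)
      ⟨(hΓ.connected.dist_eq_zero_iff).1 h3, (hΓ.connected.dist_eq_zero_iff).1 h4⟩
  · intro v
    refine C_le hC.base (fun g hg => hS v g ?_) (hst v)
    have hg' : Sim (tame (PT.fam Γ.dist) N) v (g • v) := Sim.symm hg
    refine PT.path Γ.dist ht (tame_sub _ _) (P := (wild Γ N).Reachable) ?_ ?_ ?_ hg'
    · intro x y h
      rw [(hΓ.connected.dist_eq_zero_iff).1 h]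
    · exact fun x y z h h' => h.trans h'
    · intro x y hxy h
      have h1 : ∃ n ∈ N, n • PT.half Γ.dist x y = PT.half Γ.dist x y ∧ n ≠ 1 := by
        by_contra hcon
        push Not at hcon
        exact h ⟨⟨x, y, hxy, rfl⟩, hcon⟩
      obtain ⟨n, hn1, hn2, hn3⟩ := h1
      have hbd := ht.bd hxy
      have hbd' := hbd.smul hF n
      rw [hn2] at hbd'
      have h3 := ht.zero_of_sim' (hbd'.unique hF ⟨x, y, hxy, rfl⟩ hbd)
      have h4 := ht.zero_of_sim' (hbd'.unique' hF ⟨x, y, hxy, rfl⟩ hbd)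
      exact (Adj.reachable (G := wild Γ N) ⟨dist_eq_one_iff_adj.1 hxy, n, hn1, hn3,
        (hΓ.connected.dist_eq_zero_iff).1 h3, (hΓ.connected.dist_eq_zero_iff).1 h4⟩)

end Pool.Agent.K7.H87.FJ3
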